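import Pool.Agent.SYZ71Z.ZDefs

/-!
# SYZ71Z/ZHilb : lower bound of the Hilbert function of a prime

Let `C = A ⧸ p`, a domain, `U = V.map (mkₐ F p) ⊆ C`.  Then `(V ^ K).map = U ^ K`
(`Submodule.map_pow`), `1 ∈ U`, and `C` is algebraic over `F[U]`: for `c = mk a` take `s` with
`s * a ∈ F[V]`, `s` a unit, so `mk s ≠ 0` and `mk s * c ∈ F[U]`.
By `exists_isTranscendenceBasis_subset` there is a transcendence basis `t ⊆ U` of `C / F`,
`#t = trdeg F C ≥ e` (`IsTranscendenceBasis.cardinalMk_eq_trdeg`), so there are `e` distinct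
elements of `t`, i.e. an algebraically independent family `x : Fin e → C` with values in `U`.
The monomials `∏ x_i ^ m_i` with `∑ m_i ≤ K` are linearly independent over `F`
(`AlgebraicIndependent.linearIndependent`, or the injectivity of `aeval x` on `MvPolynomial`) and
lie in `U ^ K` (`1 ∈ U`, `Submodule.pow_mem_pow`, `Submodule.mul_mem_mul`,
`Submodule.pow_le_pow_right`-like).  Their number is
`(K + e).choose e` (e.g. `Finset.card` of `Finset.sym`, `Sym.card_sym_eq_choose` for
`Sym (Fin (e+1)) K` is `(e + 1 + K - 1).choose K`, identify a monomial of degree `≤ K` in `e`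
variables with a multiset of size `K` in `e + 1` symbols; or prove
`finrank (MvPolynomial.restrictTotalDegree (Fin e) F K) = (K + e).choose e` by induction).
-/

set_option autoImplicit false

open Module

universe u

namespace Pool.Agent.SYZ71Z

/-- exponents of `e + 1` variables of total degree `K` -/
abbrev Expo (e K : ℕ) : Type := ((Finset.univ : Finset (Fin (e + 1))).finsuppAntidiag K)

theorem card_expo (e K : ℕ) : Fintype.card (Expo e K) = (K + e).choose e := by
  rw [Fintype.card_coe, Finset.card_finsuppAntidiag_nat_eq_choose, Finset.card_univ,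
    Fintype.card_fin]
  rw [show e + 1 + K - 1 = K + e by omega]
  exact Nat.choose_symm_of_eq_add rfl

/-- dehomogenised exponent -/
noncomputable def Expo.tail {e K : ℕ} (a : Expo e K) : Fin e →₀ ℕ :=
  Finsupp.equivFunOnFinite.symm fun i => (a : Fin (e + 1) →₀ ℕ) i.succ

theorem Expo.sum_eq {e K : ℕ} (a : Expo e K) :
    (a : Fin (e + 1) →₀ ℕ) 0 + ∑ i : Fin e, (a : Fin (e + 1) →₀ ℕ) i.succ = K := by
  have h1 := (Finset.mem_finsuppAntidiag.1 a.2).1
  rw [Fin.sum_univ_succ] at h1
  exact h1

theorem Expo.tail_injective (e K : ℕ) : Function.Injective (Expo.tail : Expo e K → _) := by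
  intro a b h
  apply Subtype.ext
  have h1 : ∀ i : Fin e, (a : Fin (e + 1) →₀ ℕ) i.succ = (b : Fin (e + 1) →₀ ℕ) i.succ := by
    intro i
    have := DFunLike.congr_fun h i
    simpa [Expo.tail] using this
  ext i
  refine Fin.cases ?_ h1 i
  have ha := a.sum_eq
  have hb := b.sum_eq
  simp only [h1] at ha
  omega

theorem linearIndependent_monomials {F C : Type*} [Field F] [CommRing C] [Algebra F C] {e : ℕ}
    (x : Fin e → C) (hx : AlgebraicIndependent F x) (K : ℕ) :
    LinearIndependent F (fun a : Expo e K => ∏ i : Fin e, x i ^ (a : Fin (e + 1) →₀ ℕ) i.succ) := by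
  have h1 : LinearIndependent F (fun m : Fin e →₀ ℕ => MvPolynomial.aeval x
      (MvPolynomial.monomial m (1 : F))) := by
    have h2 := (MvPolynomial.basisMonomials (Fin e) F).linearIndependent
    have h3 := h2.map' (MvPolynomial.aeval x : MvPolynomial (Fin e) F →ₐ[F] C).toLinearMap
      (LinearMap.ker_eq_bot.2 hx)
    have h4 : (fun m : Fin e →₀ ℕ => MvPolynomial.aeval x (MvPolynomial.monomial m (1 : F))) =
        ((MvPolynomial.aeval x : MvPolynomial (Fin e) F →ₐ[F] C).toLinearMap ∘
          (MvPolynomial.basisMonomials (Fin e) F)) := by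
      funext m
      rw [Function.comp_apply, MvPolynomial.coe_basisMonomials]
      rfl
    rw [h4]
    exact h3
  have h5 := h1.comp (Expo.tail : Expo e K → _) (Expo.tail_injective e K)
  have h6 : (fun a : Expo e K => ∏ i : Fin e, x i ^ (a : Fin (e + 1) →₀ ℕ) i.succ) =
      (fun m : Fin e →₀ ℕ => MvPolynomial.aeval x (MvPolynomial.monomial m (1 : F))) ∘
        (Expo.tail : Expo e K → _) := by
    funext a
    rw [Function.comp_apply, MvPolynomial.aeval_monomial, map_one, one_mul,
      Finsupp.prod_fintype _ _ (by intro i; simp)]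
    rfl
  rw [h6]
  exact h5

theorem hilb_lower {F A : Type u} [Field F] [CommRing A] [Algebra F A]
    (V : Submodule F A) [Module.Finite F V] (h1 : (1 : A) ∈ V)
    (hloc : ∀ a : A, ∃ s ∈ Algebra.adjoin F (V : Set A), IsUnit s ∧
      s * a ∈ Algebra.adjoin F (V : Set A))
    (p : Ideal A) (hp : p.IsPrime) (e : ℕ)
    (he : (e : Cardinal.{u}) ≤ Algebra.trdeg F (A ⧸ p)) (K : ℕ) :
    (K + e).choose e ≤ hilb V p K := by
  classical
  have hdom : IsDomain (A ⧸ p) := Ideal.Quotient.isDomain p
  set φ : A →ₐ[F] (A ⧸ p) := Ideal.Quotient.mkₐ F p with hφ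
  have hφs : Function.Surjective φ := Ideal.Quotient.mkₐ_surjective F p
  set U : Submodule F (A ⧸ p) := V.map φ.toLinearMap with hU
  have hUset : (φ '' (V : Set A)) = (U : Set (A ⧸ p)) := rfl
  have hadj : ∀ a ∈ Algebra.adjoin F (V : Set A), φ a ∈ Algebra.adjoin F (U : Set (A ⧸ p)) := by
    intro a ha
    rw [← hUset, ← AlgHom.map_adjoin]
    exact ⟨a, ha, rfl⟩
  have halg : Algebra.IsAlgebraic (Algebra.adjoin F (U : Set (A ⧸ p))) (A ⧸ p) := by
    constructor
    intro c
    obtain ⟨a, rfl⟩ := hφs c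
    obtain ⟨s, hs, hsu, hsa⟩ := hloc a
    have h2 : φ s ≠ 0 := (hsu.map φ).ne_zero
    refine ⟨Polynomial.C (⟨φ s, hadj s hs⟩ : Algebra.adjoin F (U : Set (A ⧸ p))) * Polynomial.X -
      Polynomial.C ⟨φ (s * a), hadj _ hsa⟩, ?_, ?_⟩
    · intro h0
      have h3 := congrArg (fun q => Polynomial.coeff q 1) h0
      simp only [Polynomial.coeff_sub, Polynomial.coeff_C_mul, Polynomial.coeff_X_one, mul_one,
        Polynomial.coeff_C_succ, sub_zero, Polynomial.coeff_zero] at h3
      exact h2 (congrArg Subtype.val h3)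
    · rw [map_sub, map_mul, Polynomial.aeval_C, Polynomial.aeval_C, Polynomial.aeval_X]
      change φ s * φ a - φ (s * a) = 0
      rw [map_mul, sub_self]
  obtain ⟨t, htU, ht⟩ := exists_isTranscendenceBasis_subset (R := F) (U : Set (A ⧸ p))
  have hcard := ht.cardinalMk_eq_trdeg
  rw [← hcard] at he
  have hemb : Nonempty (Fin e ↪ t) := by
    rw [← Cardinal.lift_mk_le']
    rw [Cardinal.mk_fin, Cardinal.lift_natCast]
    simpa using he
  obtain ⟨f⟩ := hemb
  set x : Fin e → (A ⧸ p) := fun i => (f i : A ⧸ p) with hx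
  have hxi : AlgebraicIndependent F x := ht.1.comp f f.injective
  have hxU : ∀ i, x i ∈ U := fun i => htU (f i).2
  have h1U : (1 : A ⧸ p) ∈ U := ⟨1, h1, map_one φ⟩
  have hpow : (V ^ K).map φ.toLinearMap = U ^ K := Submodule.map_pow V φ K
  have hmem : ∀ a : Expo e K, ∏ i : Fin e, x i ^ (a : Fin (e + 1) →₀ ℕ) i.succ ∈ U ^ K := by
    intro a
    have h3 : ∀ s : Finset (Fin e), ∏ i ∈ s, x i ^ (a : Fin (e + 1) →₀ ℕ) i.succ ∈
        U ^ (∑ i ∈ s, (a : Fin (e + 1) →₀ ℕ) i.succ) := by
      intro s
      induction s using Finset.induction_on with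
      | empty => simp
      | insert i s hi ih =>
        rw [Finset.prod_insert hi, Finset.sum_insert hi, pow_add]
        exact Submodule.mul_mem_mul (Submodule.pow_mem_pow _ (hxU i) _) ih
    have h4 := Submodule.mul_mem_mul
      (Submodule.pow_mem_pow U h1U ((a : Fin (e + 1) →₀ ℕ) 0)) (h3 Finset.univ)
    rw [one_pow, one_mul, ← pow_add, a.sum_eq] at h4
    exact h4
  have hli := linearIndependent_monomials x hxi K
  have hfin : Module.Finite F ↥((V ^ K).map φ.toLinearMap) := by
    have h5 : Module.Finite F ↥(V ^ K) := by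
      have h6 : V.FG := Module.Finite.iff_fg.1 inferInstance
      exact Module.Finite.iff_fg.2 (h6.pow K)
    exact Module.Finite.map _ _
  have hli2 : LinearIndependent F (fun a : Expo e K =>
      (⟨∏ i : Fin e, x i ^ (a : Fin (e + 1) →₀ ℕ) i.succ, by rw [hpow]; exact hmem a⟩ :
        ↥((V ^ K).map φ.toLinearMap))) := by
    apply LinearIndependent.of_comp ((V ^ K).map φ.toLinearMap).subtype
    exact hli
  have h7 := hli2.fintype_card_le_finrank
  rw [card_expo] at h7
  exact h7

end Pool.Agent.SYZ71Z
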