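import Pool.Agent.SYZ71Z.ZDefs

/-!
# SYZ71Z/ZCut : monotonicity of `hilb` and the cut by a nonzerodivisor

`hilb_anti`: `Q ≤ Q'` gives a surjection `A ⧸ Q → A ⧸ Q'` mapping the image of `V ^ K` onto the
image of `V ^ K`.

`hilb_cut_step`: `H(Q', K+1) + H(Q, K) ≤ H(Q, K+1)`.  Let `W = (V ^ (K+1)).map (mk Q)`, and
`π : W → (V ^ (K+1)).map (mk Q')` the surjection; `finrank W = H(Q', K+1) + finrank ker π`.
Multiplication by `x` maps `(V ^ K).map (mk Q)` injectively (by `hx`) into `ker π`
(`x ∈ V` so `x * V ^ K ⊆ V ^ (K+1)`, and `x ∈ Q'`).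

`hilb_cut`: summing, with `H(Q', 0) ≤ H(Q, 0)` from `hilb_anti`:
`∑_{j ≤ K} H(Q', j) ≤ H(Q, K)` by induction on `K`.
-/

set_option autoImplicit false

open Module

namespace Pool.Agent.SYZ71Z

private theorem cut_finPow {F A : Type*} [Field F] [CommRing A] [Algebra F A]
    (V : Submodule F A) [Module.Finite F V] (K : ℕ) : Module.Finite F ↥(V ^ K) :=
  Module.Finite.iff_fg.mpr ((Module.Finite.iff_fg.mp (inferInstance : Module.Finite F V)).pow K)

theorem hilb_anti {F A : Type*} [Field F] [CommRing A] [Algebra F A]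
    (V : Submodule F A) [Module.Finite F V] (Q Q' : Ideal A) (hQ : Q ≤ Q') (K : ℕ) :
    hilb V Q' K ≤ hilb V Q K := by
  have hfin := cut_finPow V K
  have hmap : (V ^ K).map (Ideal.Quotient.mkₐ F Q').toLinearMap =
      ((V ^ K).map (Ideal.Quotient.mkₐ F Q).toLinearMap).map
        (Ideal.Quotient.factorₐ F hQ).toLinearMap := by
    rw [← Submodule.map_comp]
    congr 1
  unfold hilb
  rw [hmap]
  have hf1 : Module.Finite F ↥((V ^ K).map (Ideal.Quotient.mkₐ F Q).toLinearMap) :=
    Module.Finite.map _ _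
  exact Submodule.finrank_map_le _ _

theorem hilb_cut_step {F A : Type*} [Field F] [CommRing A] [Algebra F A]
    (V : Submodule F A) [Module.Finite F V] (Q Q' : Ideal A) (hQ : Q ≤ Q') (x : A) (hxV : x ∈ V)
    (hxQ : x ∈ Q') (hx : ∀ a : A, x * a ∈ Q → a ∈ Q) (K : ℕ) :
    hilb V Q' (K + 1) + hilb V Q K ≤ hilb V Q (K + 1) := by
  have hf1 := cut_finPow V K
  have hf2 := cut_finPow V (K + 1)
  let ρ : (A ⧸ Q) →ₗ[F] (A ⧸ Q') := (Ideal.Quotient.factorₐ F hQ).toLinearMap
  let W : Submodule F (A ⧸ Q) := (V ^ (K + 1)).map (Ideal.Quotient.mkₐ F Q).toLinearMap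
  have hWf : Module.Finite F W := Module.Finite.map _ _
  have hrk := LinearMap.finrank_range_add_finrank_ker (ρ.domRestrict W)
  have hran : hilb V Q' (K + 1) ≤ finrank F (LinearMap.range (ρ.domRestrict W)) := by
    refine Submodule.finrank_mono ?_
    rintro _ ⟨y, hy, rfl⟩
    exact ⟨⟨Ideal.Quotient.mk Q y, ⟨y, hy, rfl⟩⟩, rfl⟩
  have hker : hilb V Q K ≤ finrank F (LinearMap.ker (ρ.domRestrict W)) := by
    let T : Submodule F (A ⧸ Q) := (V ^ K).map (Ideal.Quotient.mkₐ F Q).toLinearMap
    have hTf : Module.Finite F T := Module.Finite.map _ _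
    have hmem : ∀ z ∈ T, Ideal.Quotient.mk Q x * z ∈ W := by
      rintro z ⟨y, hy, rfl⟩
      refine ⟨x * y, ?_, by simp⟩
      have := Submodule.mul_mem_mul hxV hy
      rw [← pow_succ'] at this
      exact this
    have hzero : ∀ z : A ⧸ Q, ρ (Ideal.Quotient.mk Q x * z) = 0 := by
      intro z
      change (Ideal.Quotient.factorₐ F hQ) (Ideal.Quotient.mk Q x * z) = 0
      rw [map_mul]
      have : (Ideal.Quotient.factorₐ F hQ) (Ideal.Quotient.mk Q x) = 0 := by
        change Ideal.Quotient.factor hQ (Ideal.Quotient.mk Q x) = 0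
        rw [Ideal.Quotient.factor_mk]
        exact Ideal.Quotient.eq_zero_iff_mem.mpr hxQ
      rw [this, zero_mul]
    let φ : T →ₗ[F] LinearMap.ker (ρ.domRestrict W) :=
      { toFun := fun z => ⟨⟨Ideal.Quotient.mk Q x * z, hmem z z.2⟩, by
          rw [LinearMap.mem_ker]
          exact hzero z⟩
        map_add' := fun x y => by
          apply Subtype.ext
          apply Subtype.ext
          simp [mul_add]
        map_smul' := fun c x => by
          apply Subtype.ext
          apply Subtype.ext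
          simp }
    have hφ : Function.Injective φ := by
      rw [injective_iff_map_eq_zero]
      rintro ⟨z, y, hy, rfl⟩ hz
      have h3 : Ideal.Quotient.mk Q x * Ideal.Quotient.mk Q y = 0 :=
        congrArg (fun z => ((z : W) : A ⧸ Q)) (congrArg Subtype.val hz)
      rw [← map_mul, Ideal.Quotient.eq_zero_iff_mem] at h3
      exact Subtype.ext (Ideal.Quotient.eq_zero_iff_mem.mpr (hx y h3))
    exact LinearMap.finrank_le_finrank_of_injective hφ
  calc hilb V Q' (K + 1) + hilb V Q K
      ≤ finrank F (LinearMap.range (ρ.domRestrict W)) +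
          finrank F (LinearMap.ker (ρ.domRestrict W)) := add_le_add hran hker
    _ = finrank F W := hrk
    _ = hilb V Q (K + 1) := rfl

theorem hilb_cut {F A : Type*} [Field F] [CommRing A] [Algebra F A]
    (V : Submodule F A) [Module.Finite F V] (Q Q' : Ideal A) (hQ : Q ≤ Q') (x : A) (hxV : x ∈ V)
    (hxQ : x ∈ Q') (hx : ∀ a : A, x * a ∈ Q → a ∈ Q) (K : ℕ) :
    ∑ j ∈ Finset.range (K + 1), hilb V Q' j ≤ hilb V Q K := by
  induction K with
  | zero =>
    rw [Finset.sum_range_one]
    exact hilb_anti V Q Q' hQ 0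
  | succ K ih =>
    rw [Finset.sum_range_succ]
    have := hilb_cut_step V Q Q' hQ x hxV hxQ hx K
    omega

end Pool.Agent.SYZ71Z
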