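import Pool.Agent.SYZ71Z.ZDefs

/-!
# SYZ71Z/ZNum : numerical comparison

`sumIter_mono`: induction on `h`.

`sumIter_choose`: if `T * (K + e).choose e ≤ f (K + K₀)` for all `K`, then
`T * (K + (e + h)).choose (e + h) ≤ sumIter h f (K + K₀)`.  Induction on `h` (for all `f, e`):
`∑_{j ≤ K + K₀} f j ≥ ∑_{i ≤ K} f (i + K₀) ≥ T * ∑_{i ≤ K} (i + e).choose e
 = T * (K + e + 1).choose (e + 1)` (hockey stick, `Nat.sum_range_add_choose`), then use the
induction hypothesis with `e + 1`.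

`numeric`: so for `M = e + h ≥ N` and all `K` with `K + K₀ ≥ 1`:
`T * (K + M).choose M ≤ T₀ * (K + K₀) ^ N`.  As `K ^ M ≤ M! * (K + M).choose M`
(`(K+M)!/(K! ) ≥ K^M`: `Nat.ascFactorial`/`Nat.descFactorial`; e.g. `Nat.pow_succ_le_ascFactorial`,
`Nat.ascFactorial_eq_factorial_mul_choose`),
`T * K ^ M ≤ M! * T₀ * (K + K₀) ^ N ≤ M! * T₀ * (1 + K₀) ^ N * K ^ N` for `K ≥ 1`.
If `M > N` this says `K ≤ T * K ^ (M - N) ≤ M! * T₀ * (1 + K₀) ^ N` for all `K ≥ 1`: impossible.
So `M = N`, `h ≤ N`, and `T ≤ N! * T₀ * (1 + K₀ / K) ^ N` in `ℝ` for all `K ≥ 1`; let `K → ∞`.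
-/

set_option autoImplicit false

open Module

namespace Pool.Agent.SYZ71Z

theorem sumIter_mono (h : ℕ) (f f' : ℕ → ℕ) (hf : ∀ K, f K ≤ f' K) (K : ℕ) :
    sumIter h f K ≤ sumIter h f' K := by
  induction h generalizing f f' with
  | zero => exact hf K
  | succ h ih => exact ih _ _ fun K => Finset.sum_le_sum fun j _ => hf j

theorem ZNum_sumIter_choose (T K₀ h : ℕ) : ∀ (e : ℕ) (f : ℕ → ℕ)
    (_ : ∀ K, T * (K + e).choose e ≤ f (K + K₀)) (K : ℕ),
    T * (K + (e + h)).choose (e + h) ≤ sumIter h f (K + K₀) := by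
  induction h with
  | zero => intro e f hf K; exact hf K
  | succ h ih =>
    intro e f hf K
    have key := ih (e + 1) (fun K => ∑ j ∈ Finset.range (K + 1), f j) (by
      intro K
      have h1 : T * (K + (e + 1)).choose (e + 1)
          = ∑ i ∈ Finset.range (K + 1), T * (i + e).choose e := by
        rw [← Finset.mul_sum, Nat.sum_range_add_choose]
        rfl
      rw [h1]
      calc ∑ i ∈ Finset.range (K + 1), T * (i + e).choose e
          ≤ ∑ i ∈ Finset.range (K + 1), f (K₀ + i) := by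
            refine Finset.sum_le_sum fun i _ => ?_
            rw [Nat.add_comm K₀ i]
            exact hf i
        _ ≤ ∑ j ∈ Finset.range (K₀ + (K + 1)), f j := by
            rw [Finset.sum_range_add f K₀ (K + 1)]
            exact Nat.le_add_left _ _
        _ = ∑ j ∈ Finset.range (K + K₀ + 1), f j := by
            congr 2
            omega) K
    have e1 : e + (h + 1) = e + 1 + h := by omega
    rw [e1]
    exact key

theorem numeric (T N e h K₀ T₀ : ℕ) (hT : 1 ≤ T) (hN : N ≤ h + e) (f : ℕ → ℕ)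
    (hf : ∀ K, T * (K + e).choose e ≤ f (K + K₀))
    (hs : ∀ K, 1 ≤ K → sumIter h f K ≤ T₀ * K ^ N) :
    h ≤ N ∧ T ≤ N.factorial * T₀ := by
  have h1 : ∀ K, 1 ≤ K → T * K ^ (e + h) ≤ (e + h).factorial * T₀ * (K + K₀) ^ N := by
    intro K hK
    have a1 := ZNum_sumIter_choose T K₀ h e f hf K
    have a2 := hs (K + K₀) (by omega)
    have a3 : K ^ (e + h) ≤ (e + h).factorial * (K + (e + h)).choose (e + h) := by
      rw [← Nat.descFactorial_eq_factorial_mul_choose]
      refine le_trans ?_ (Nat.pow_sub_le_descFactorial (K + (e + h)) (e + h))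
      apply Nat.pow_le_pow_left
      omega
    calc T * K ^ (e + h) ≤ T * ((e + h).factorial * (K + (e + h)).choose (e + h)) :=
          Nat.mul_le_mul_left _ a3
      _ = (e + h).factorial * (T * (K + (e + h)).choose (e + h)) := by ring
      _ ≤ (e + h).factorial * (T₀ * (K + K₀) ^ N) := Nat.mul_le_mul_left _ (a1.trans a2)
      _ = _ := by ring
  have hM : e + h = N := by
    by_contra hne
    have hlt : N + 1 ≤ e + h := by omega
    obtain ⟨d, hd⟩ := Nat.exists_eq_add_of_le hlt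
    set C := (e + h).factorial * T₀ * (1 + K₀) ^ N with hC
    have b1 := h1 (C + 1) (by omega)
    have b2 : (C + 1 + K₀) ^ N ≤ ((1 + K₀) * (C + 1)) ^ N := by
      apply Nat.pow_le_pow_left
      nlinarith
    have b3 : (C + 1) * (C + 1) ^ N ≤ T * (C + 1) ^ (e + h) := by
      have : (C + 1) ^ (N + 1) ≤ (C + 1) ^ (e + h) := Nat.pow_le_pow_right (by omega) hlt
      calc (C + 1) * (C + 1) ^ N = (C + 1) ^ (N + 1) := by ring
        _ ≤ (C + 1) ^ (e + h) := this
        _ ≤ T * (C + 1) ^ (e + h) := Nat.le_mul_of_pos_left _ hT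
    have b4 : (C + 1) * (C + 1) ^ N ≤ C * (C + 1) ^ N := by
      calc (C + 1) * (C + 1) ^ N ≤ T * (C + 1) ^ (e + h) := b3
        _ ≤ (e + h).factorial * T₀ * (C + 1 + K₀) ^ N := b1
        _ ≤ (e + h).factorial * T₀ * ((1 + K₀) * (C + 1)) ^ N := Nat.mul_le_mul_left _ b2
        _ = C * (C + 1) ^ N := by rw [hC, mul_pow]; ring
    have b5 : 0 < (C + 1) ^ N := by positivity
    have b6 := Nat.le_of_mul_le_mul_right b4 b5
    omega
  refine ⟨by omega, ?_⟩
  rw [hM] at h1
  by_contra hT2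
  push Not at hT2
  set c := N.factorial * T₀ with hc
  have h2 : ∀ K : ℕ, 1 ≤ K → (K + K₀ : ℝ) ≤ (c + 1) * N * K₀ := by
    intro K hK
    have q1 : (T : ℝ) * (K : ℝ) ^ N ≤ c * ((K : ℝ) + K₀) ^ N := by
      exact_mod_cast h1 K hK
    have q2 : (c : ℝ) + 1 ≤ T := by exact_mod_cast hT2
    have hK' : (1 : ℝ) ≤ K := by exact_mod_cast hK
    have hK0 : (0 : ℝ) ≤ K₀ := by positivity
    have hpos : (0 : ℝ) < (K : ℝ) + K₀ := by linarith
    have q3 : ((c : ℝ) + 1) * (K / (K + K₀)) ^ N ≤ c := by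
      rw [div_pow, ← mul_div_assoc, div_le_iff₀ (by positivity)]
      calc ((c : ℝ) + 1) * (K : ℝ) ^ N ≤ T * (K : ℝ) ^ N := by
            exact mul_le_mul_of_nonneg_right q2 (by positivity)
        _ ≤ _ := q1
    have q4 : 1 + (N : ℝ) * (-(K₀ / (K + K₀))) ≤ (1 + -((K₀ : ℝ) / (K + K₀))) ^ N := by
      apply one_add_mul_le_pow
      have : (K₀ : ℝ) / (K + K₀) ≤ 1 := by
        rw [div_le_one hpos]; linarith
      linarith
    have q5 : (1 + -((K₀ : ℝ) / (K + K₀))) = K / (K + K₀) := by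
      field_simp
      ring
    rw [q5] at q4
    have q6 : ((c : ℝ) + 1) * (1 + (N : ℝ) * (-(K₀ / (K + K₀)))) ≤ c :=
      (mul_le_mul_of_nonneg_left q4 (by positivity)).trans q3
    have q7 : (1 : ℝ) ≤ ((c : ℝ) + 1) * N * K₀ / (K + K₀) := by
      have : ((c : ℝ) + 1) * (1 + (N : ℝ) * (-(K₀ / (K + K₀))))
          = (c + 1) - ((c : ℝ) + 1) * N * K₀ / (K + K₀) := by ring
      linarith
    rw [le_div_iff₀ hpos] at q7
    linarith
  have h3 := h2 ((c + 1) * N * K₀ + 1) (by omega)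
  push_cast at h3
  have : (0 : ℝ) ≤ K₀ := by positivity
  linarith

end Pool.Agent.SYZ71Z
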