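import Pool.Agent.SYZ71Z.ZDefs

/-!
# SYZ71Z/ZTrd : `trdeg_F (F ⊗ F) ≥ trdeg_k F`

`x : Fin N → F` algebraically independent over `k`
(`exists_isTranscendenceBasis'`, cardinality `N`).  The family `1 ⊗ x_i` is algebraically
independent over `F`:
the map `MvPolynomial (Fin N) F ≅ F ⊗ MvPolynomial (Fin N) k → F ⊗ F` is injective by flatness
(`MvPolynomial.algebraTensorAlgEquiv`, `Module.Flat.lTensor_preserves_injective_linearMap`);
or: the monomials in `x` are `k`-linearly independent in `F`, so the `1 ⊗ x^m` are `F`-linearly
independent in `F ⊗ F` (`LinearIndependent` base change).  Then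
`AlgebraicIndependent.cardinalMk_le_trdeg` (or the lift version).
-/

set_option autoImplicit false

open Module TensorProduct

universe u v

namespace Pool.Agent.SYZ71Z

variable {k : Type v} {F : Type u} [Field k] [Field F] [Algebra k F]

theorem algebraicIndependent_one_tmul {ι : Type*} (x : ι → F) (hx : AlgebraicIndependent k x) :
    AlgebraicIndependent F (fun i => (1 : F) ⊗ₜ[k] x i) := by
  rw [algebraicIndependent_iff_injective_aeval] at hx ⊢
  have hcomp : (MvPolynomial.aeval (fun i => (1 : F) ⊗ₜ[k] x i)).comp
      (MvPolynomial.algebraTensorAlgEquiv k F).toAlgHom =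
      Algebra.TensorProduct.map (AlgHom.id F F) (MvPolynomial.aeval x : MvPolynomial ι k →ₐ[k] F) := by
    ext i
    simp
  have hinj : Function.Injective
      (Algebra.TensorProduct.map (AlgHom.id F F)
        (MvPolynomial.aeval x : MvPolynomial ι k →ₐ[k] F)) := by
    have h1 : Function.Injective
        (LinearMap.lTensor F (MvPolynomial.aeval x : MvPolynomial ι k →ₐ[k] F).toLinearMap) :=
      Module.Flat.lTensor_preserves_injective_linearMap _ hx
    intro a b hab
    apply h1
    have h2 : ∀ z, (LinearMap.lTensor F
        (MvPolynomial.aeval x : MvPolynomial ι k →ₐ[k] F).toLinearMap) z =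
        Algebra.TensorProduct.map (AlgHom.id F F)
          (MvPolynomial.aeval x : MvPolynomial ι k →ₐ[k] F) z := by
      intro z
      induction z with
      | zero => simp
      | tmul c d => simp
      | add u v hu hv => rw [map_add, map_add, hu, hv]
    rw [h2, h2, hab]
  rw [← hcomp] at hinj
  intro p q hpq
  have h3 := @hinj ((MvPolynomial.algebraTensorAlgEquiv k F).symm p)
    ((MvPolynomial.algebraTensorAlgEquiv k F).symm q) (by
      simp only [AlgHom.comp_apply, AlgEquiv.coe_toAlgHom, AlgEquiv.apply_symm_apply]
      exact hpq)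
  exact (MvPolynomial.algebraTensorAlgEquiv k F).symm.injective h3

theorem tensor_trdeg (N : ℕ) (htr : Algebra.trdeg k F = N) :
    (N : Cardinal.{u}) ≤ Algebra.trdeg F (F ⊗[k] F) := by
  obtain ⟨s, hs⟩ := exists_isTranscendenceBasis k F
  have h1 := hs.cardinalMk_eq_trdeg
  rw [← htr, ← h1]
  exact (algebraicIndependent_one_tmul _ hs.1).cardinalMk_le_trdeg

end Pool.Agent.SYZ71Z
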