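import Pool.Agent.SYZ71Z.ZStab

/-!
# SYZ71Z/ZFix : echelon argument over the fixed field of one automorphism

If `b` is linearly independent over the fixed field of `σ = g u` and `∑ c_i g_{v + j u} (b_i) = 0`
for all integers `j`, then `c = 0`.  Consequence: a prime `P ≤ m_v` of `F ⊗ F` containing
`x = ∑ c_i ⊗ b_i`, `c ≠ 0`, is not stable under `tau (g u)`, `u ≠ 0`; so its translates are
pairwise distinct.
-/

set_option autoImplicit false

open TensorProduct Module

universe u v

namespace Pool.Agent.SYZ71Z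

theorem echelon_fixed {k F : Type*} [Field k] [Field F] [Algebra k F] (σ : F ≃ₐ[k] F)
    (m : ℕ) (b : Fin m → F)
    (hlin : ∀ c : Fin m → F, (∀ i, σ (c i) = c i) → ∑ i, c i * b i = 0 → c = 0)
    (c : Fin m → F) (hz : ∀ j : ℤ, ∑ i, c i * (σ ^ j) (b i) = 0) : c = 0 := by
  classical
  have key : ∀ N : ℕ, ∀ c : Fin m → F, (Finset.univ.filter fun i => c i ≠ 0).card = N →
      (∀ j : ℤ, ∑ i, c i * (σ ^ j) (b i) = 0) → c = 0 := by
    intro N
    induction N using Nat.strong_induction_on with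
    | _ N IH =>
      intro c hN hc
      by_contra hne
      obtain ⟨i0, hi0⟩ : ∃ i0, c i0 ≠ 0 := by
        by_contra h
        push Not at h
        exact hne (funext h)
      set c' : Fin m → F := fun i => (c i0)⁻¹ * c i with hc'
      have h1 : c' i0 = 1 := by
        simp only [hc']
        exact inv_mul_cancel₀ hi0
      have hz' : ∀ j : ℤ, ∑ i, c' i * (σ ^ j) (b i) = 0 := by
        intro j
        have h := hc j
        calc ∑ i, c' i * (σ ^ j) (b i)
            = (c i0)⁻¹ * ∑ i, c i * (σ ^ j) (b i) := by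
              rw [Finset.mul_sum]
              refine Finset.sum_congr rfl fun i _ => ?_
              simp only [hc']
              ring
          _ = 0 := by rw [h, mul_zero]
      have hshift : ∀ j : ℤ, ∑ i, σ (c' i) * (σ ^ j) (b i) = 0 := by
        intro j
        have h := congrArg σ (hz' (j - 1))
        rw [map_zero, map_sum] at h
        rw [← h]
        refine Finset.sum_congr rfl fun i _ => ?_
        rw [map_mul σ (c' i) ((σ ^ (j - 1)) (b i))]
        congr 1
        have h2 : σ ((σ ^ (j - 1)) (b i)) = (σ * σ ^ (j - 1)) (b i) := rfl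
        rw [h2, mul_self_zpow, sub_add_cancel]
      set d : Fin m → F := fun i => σ (c' i) - c' i with hd
      have hdz : ∀ j : ℤ, ∑ i, d i * (σ ^ j) (b i) = 0 := by
        intro j
        simp only [hd, sub_mul, Finset.sum_sub_distrib, hshift j, hz' j, sub_zero]
      have hlt : (Finset.univ.filter fun i => d i ≠ 0).card < N := by
        rw [← hN]
        refine Finset.card_lt_card ?_
        rw [Finset.ssubset_iff_of_subset]
        · refine ⟨i0, by simp [hi0], ?_⟩
          simp [hd, h1]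
        · intro i hi
          simp only [Finset.mem_filter, Finset.mem_univ, true_and] at hi ⊢
          intro h0
          apply hi
          simp [hd, hc', h0]
      have hd0 : d = 0 := IH _ hlt d rfl hdz
      have hfix : ∀ i, σ (c' i) = c' i := by
        intro i
        have := congrFun hd0 i
        simp only [hd, Pi.zero_apply] at this
        exact sub_eq_zero.mp this
      have hsum : ∑ i, c' i * b i = 0 := by
        have h := hz' 0
        rw [← h]
        refine Finset.sum_congr rfl fun i _ => ?_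
        rw [zpow_zero, AlgEquiv.one_apply]
      have hc0 : c' i0 = 0 := congrFun (hlin c' hfix hsum) i0
      rw [h1] at hc0
      exact one_ne_zero hc0
  exact key _ c rfl hz

variable {k : Type v} {F : Type u} [Field k] [Field F] [Algebra k F]

theorem echelon_fixed' (σ ρ : F ≃ₐ[k] F) (m : ℕ) (b : Fin m → F)
    (hlin : ∀ c : Fin m → F, (∀ i, σ (c i) = c i) → ∑ i, c i * b i = 0 → c = 0)
    (c : Fin m → F) (hz : ∀ j : ℤ, ∑ i, c i * (ρ * σ ^ j) (b i) = 0) : c = 0 := by
  have hz' : ∀ j : ℤ, ∑ i, ρ⁻¹ (c i) * (σ ^ j) (b i) = 0 := by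
    intro j
    have h2 := congrArg (ρ⁻¹ : F ≃ₐ[k] F) (hz j)
    rw [map_zero, map_sum] at h2
    rw [← h2]
    refine Finset.sum_congr rfl fun i _ => ?_
    rw [map_mul (ρ⁻¹ : F ≃ₐ[k] F) (c i) ((ρ * σ ^ j) (b i))]
    congr 1
    have h3 : (ρ⁻¹ : F ≃ₐ[k] F) ((ρ * σ ^ j) (b i)) = (ρ⁻¹ * (ρ * σ ^ j)) (b i) := rfl
    rw [h3, inv_mul_cancel_left]
  have hc := echelon_fixed σ m b hlin (fun i => ρ⁻¹ (c i)) hz'
  funext i
  have := congrFun hc i
  simp only [Pi.zero_apply] at this
  exact (map_eq_zero_iff (ρ⁻¹ : F ≃ₐ[k] F) (ρ⁻¹ : F ≃ₐ[k] F).injective).mp this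

/-- An ideal `P ≤ m_ρ` stable under `tau σ` contains no `∑ c_i ⊗ b_i ≠ 0`, `b` independent over the
fixed field of `σ`. -/
theorem eq_zero_of_stable (σ ρ : F ≃ₐ[k] F) (P : Ideal (F ⊗[k] F)) (hP : P.comap (tau σ) = P)
    (hle : P ≤ mker ρ) (m : ℕ) (b : Fin m → F)
    (hlin : ∀ c : Fin m → F, (∀ i, σ (c i) = c i) → ∑ i, c i * b i = 0 → c = 0)
    (c : Fin m → F) (hx : ∑ i, c i ⊗ₜ[k] b i ∈ P) : c = 0 := by
  have hiff : ∀ x, tau σ x ∈ P ↔ x ∈ P := by
    intro x
    rw [← Ideal.mem_comap, hP]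
  have hj : ∀ j : ℤ, tau (σ ^ j) (∑ i, c i ⊗ₜ[k] b i) ∈ P := by
    intro j
    induction j with
    | zero =>
      rw [zpow_zero, tau_one]
      exact hx
    | succ n ih =>
      rw [← mul_self_zpow, ← tau_tau, hiff]
      exact ih
    | pred n ih =>
      rw [← hiff, tau_tau, mul_self_zpow, sub_add_cancel]
      exact ih
  refine echelon_fixed' σ ρ m b hlin c fun j => ?_
  have h1 : ev ρ (tau (σ ^ j) (∑ i, c i ⊗ₜ[k] b i)) = 0 := hle (hj j)
  rw [ev_tau, map_sum] at h1
  simpa only [ev_tmul] using h1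

section Action

variable {r : ℕ} (g : (Fin r → ℤ) → (F ≃ₐ[k] F)) (hg : ∀ u v, g (u + v) = g u * g v)

include hg

theorem g_zsmul (u : Fin r → ℤ) (j : ℤ) : g (j • u) = g u ^ j := by
  induction j with
  | zero => rw [zero_smul, zpow_zero, g_zero g hg]
  | succ n ih => rw [add_smul, one_smul, hg, ih, zpow_add_one]
  | pred n ih =>
    rw [sub_smul, one_smul, sub_eq_add_neg, hg, ih, g_neg g hg, zpow_sub_one]

/-- The echelon lemma in the form used by the zero estimate. -/
theorem echelon_orbit (u v0 : Fin r → ℤ) (m : ℕ) (b : Fin m → F)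
    (hlin : ∀ c : Fin m → F, (∀ i, g u (c i) = c i) → ∑ i, c i * b i = 0 → c = 0)
    (c : Fin m → F) (hz : ∀ j : ℤ, ∑ i, c i * g (v0 + j • u) (b i) = 0) : c = 0 := by
  refine echelon_fixed' (g u) (g v0) m b hlin c fun j => ?_
  have h := hz j
  rw [hg, g_zsmul g hg] at h
  exact h

/-- The translates of an ideal `P ≤ m_ρ` containing `x = ∑ c_i ⊗ b_i`, `c ≠ 0`, are pairwise
distinct. -/
theorem comap_injective (ρ : F ≃ₐ[k] F) (P : Ideal (F ⊗[k] F)) (hle : P ≤ mker ρ)
    (m : ℕ) (b : Fin m → F)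
    (hlin : ∀ v, v ≠ 0 → ∀ c : Fin m → F, (∀ i, g v (c i) = c i) → ∑ i, c i * b i = 0 → c = 0)
    (c : Fin m → F) (hc : c ≠ 0) (hx : ∑ i, c i ⊗ₜ[k] b i ∈ P) :
    Function.Injective fun u : Fin r → ℤ => P.comap (tau (g u)) := by
  intro u w h
  by_contra hne
  refine hc (eq_zero_of_stable (g (u - w)) ρ P ?_ hle m b (hlin _ (sub_ne_zero.mpr hne)) c hx)
  exact (comap_eq_iff g hg P u w).mp h

end Action

end Pool.Agent.SYZ71Z
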