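import Pool.Agent.SYZ71Z.ZInt

/-!
# SYZ71Z/ZLocDim : the dimension property for localizations

`V ⊆ A` finite dimensional, `A` a domain, every `a : A` is `s⁻¹ * a'` with `s, a'` in the
subalgebra `R = F[V]` and `s` a unit of `A`; `N ≤ trdeg F A`.  Then `DimProp F A N`.

Proof.  `R = Algebra.adjoin F V` is finitely generated (adjoin of a finite basis of `V`), so
`Algebra.FiniteType F R`.  `M = {s : R | IsUnit (s : A)}` is a submonoid and
`IsLocalization M A` (map_units, surj from `hloc`, exists_of_eq by injectivity of `R → A`).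
`A` is algebraic over `R` (`s * a = a'`), so `trdeg F R = trdeg F A ≥ N` (`Algebra.trdeg_add_eq`,
`Algebra.IsAlgebraic.trdeg_eq_zero`), and `dimProp_finiteType` applies to `R`.
For a prime `P` of `A`, `(P.comap (algebraMap R A)).height = P.height`
(`IsLocalization.height_under` / `IsLocalization.height_comap`), and
`R ⧸ P.comap →ₐ[F] A ⧸ P` is injective, so its trdeg is at most that of `A ⧸ P`.
-/

set_option autoImplicit false

open Module

universe u

namespace Pool.Agent.SYZ71Z

theorem dimProp_of_units {F A : Type u} [Field F] [CommRing A] [IsDomain A] [Algebra F A]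
    (V : Submodule F A) [Module.Finite F V]
    (hloc : ∀ a : A, ∃ s ∈ Algebra.adjoin F (V : Set A), IsUnit s ∧
      s * a ∈ Algebra.adjoin F (V : Set A))
    (N : ℕ) (hN : (N : Cardinal.{u}) ≤ Algebra.trdeg F A) : DimProp F A N := by
  classical
  set R : Subalgebra F A := Algebra.adjoin F (V : Set A) with hR
  -- finite generation
  have hfg : R.FG := by
    obtain ⟨S, hS⟩ := (Module.Finite.iff_fg (N := V)).1 inferInstance
    refine ⟨S, ?_⟩
    apply le_antisymm
    · refine Algebra.adjoin_mono ?_
      rw [← hS]
      exact Submodule.subset_span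
    · refine Algebra.adjoin_le ?_
      rw [← hS]
      intro x hx
      exact Algebra.span_le_adjoin F _ hx
  have hft : Algebra.FiniteType F R := (Subalgebra.fg_iff_finiteType R).1 hfg
  -- the submonoid
  let M : Submonoid R := (IsUnit.submonoid A).comap (algebraMap R A)
  have hM : ∀ s : R, s ∈ M ↔ IsUnit (algebraMap R A s) := fun s => Iff.rfl
  have hinj : Function.Injective (algebraMap R A) := Subtype.val_injective
  have hlocM : IsLocalization M A :=
    { map_units := fun y => y.2
      surj := fun z => by
        obtain ⟨s, hs, hu, hsz⟩ := hloc z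
        refine ⟨(⟨s * z, hsz⟩, ⟨⟨s, hs⟩, hu⟩), ?_⟩
        change z * s = s * z
        ring
      exists_of_eq := fun {x y} h => ⟨1, by rw [hinj h]⟩ }
  have halg : Algebra.IsAlgebraic R A := by
    refine ⟨fun a => ?_⟩
    obtain ⟨s, hs, hu, hsa⟩ := hloc a
    refine ⟨Polynomial.C (⟨s, hs⟩ : R) * Polynomial.X - Polynomial.C (⟨s * a, hsa⟩ : R), ?_, ?_⟩
    · intro h
      have h1 := congrArg (fun p => Polynomial.coeff p 1) h
      simp at h1
      exact hu.ne_zero (congrArg Subtype.val h1)
    · simp
  have htr : Algebra.trdeg F R = Algebra.trdeg F A := by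
    rw [← trdeg_add_eq (A := A) F R, trdeg_eq_zero_iff.2 halg, add_zero]
  have hD : DimProp F R N := dimProp_finiteType (F := F) (R := R) N (by rw [htr]; exact hN)
  intro P hP h hh
  have := hP
  have hPR : (P.comap (algebraMap R A)).IsPrime := Ideal.IsPrime.comap _
  have hht : (P.comap (algebraMap R A)).height ≤ (h : ℕ∞) := by
    have := IsLocalization.height_under M (A := A) P
    have h2 : P.under R = P.comap (algebraMap R A) := rfl
    rw [← h2, this]
    exact hh
  obtain ⟨e, he1, he2⟩ := hD _ hPR h hht
  refine ⟨e, he1, he2.trans ?_⟩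
  let g : (R ⧸ P.comap (algebraMap R A)) →ₐ[F] A ⧸ P :=
    Ideal.quotientMapₐ P (R.val) (le_refl _)
  exact trdeg_le_of_injective g Ideal.quotientMap_injective

end Pool.Agent.SYZ71Z
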