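import Pool.Agent.SYZ71Z.ZDefs

/-!
# SYZ71Z/ZTens : basic facts on `A = F ⊗[k] F` and `V = M.baseChange F`

`tensor_noeth`: `F` is a finitely generated field extension of `k` (generated by a basis of `M`), so
`Algebra.EssFiniteType k F` (`IntermediateField.essFiniteType_iff`/`...fg`), base change
`Algebra.EssFiniteType F (F ⊗[k] F)` (`Algebra.EssFiniteType.baseChange`), Noetherian by
`Algebra.EssFiniteType.isNoetherianRing`.

`finite_baseChange`, `finrank_baseChange_pow`: `M.baseChange F` is the span of the image of `M` under
`m ↦ 1 ⊗ m`; `(M.baseChange F) ^ K` is contained in the `F`-span of the image of a `k`-basis of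
`M ^ K` (`Submodule.span_pow`, `Submodule.map_pow` for the `k`-algebra map
`includeRight : F → F ⊗ F`, `(M ^ K).map includeRight = (M.map includeRight) ^ K`), so its rank is
at most `finrank k (M ^ K)` (`finrank_range_le_card`).
-/

set_option autoImplicit false

open Module TensorProduct

universe u v

namespace Pool.Agent.SYZ71Z

variable {k : Type v} {F : Type u} [Field k] [Field F] [Algebra k F]

theorem tensor_noeth (M : Submodule k F) [Module.Finite k M]
    (hadj : IntermediateField.adjoin k (M : Set F) = ⊤) : IsNoetherianRing (F ⊗[k] F) := by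
  obtain ⟨s, hs⟩ : M.FG := Module.Finite.iff_fg.mp inferInstance
  have hfg : (⊤ : IntermediateField k F).FG := by
    refine ⟨s, ?_⟩
    rw [← top_le_iff, ← hadj, IntermediateField.adjoin_le_iff]
    have h1 : M ≤ Subalgebra.toSubmodule (IntermediateField.adjoin k (s : Set F)).toSubalgebra := by
      rw [← hs, Submodule.span_le]
      exact IntermediateField.subset_adjoin k _
    exact h1
  have hess : Algebra.EssFiniteType k F := IntermediateField.fg_top_iff.mp hfg
  exact Algebra.EssFiniteType.isNoetherianRing F (F ⊗[k] F)

theorem finite_baseChange (M : Submodule k F) [Module.Finite k M] :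
    Module.Finite F ↥(M.baseChange F : Submodule F (F ⊗[k] F)) := by
  obtain ⟨s, hs⟩ : M.FG := Module.Finite.iff_fg.mp inferInstance
  rw [← hs, Submodule.baseChange_span]
  exact FiniteDimensional.span_of_finite F (s.finite_toSet.image _)

theorem finrank_baseChange_pow (M : Submodule k F) [Module.Finite k M] (K : ℕ) :
    finrank F ↥((M.baseChange F : Submodule F (F ⊗[k] F)) ^ K) ≤ finrank k ↥(M ^ K) := by
  have hle : (M.baseChange F : Submodule F (F ⊗[k] F)) ^ K ≤ (M ^ K).baseChange F := by
    rw [Submodule.baseChange_eq_span, Submodule.span_pow, Submodule.span_le]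
    have h1 : ((M.map (TensorProduct.mk k F F 1) : Submodule k (F ⊗[k] F)) : Set (F ⊗[k] F)) =
        (Algebra.TensorProduct.includeRight : F →ₐ[k] F ⊗[k] F) '' (M : Set F) := rfl
    rw [h1, ← Set.image_pow]
    rintro _ ⟨x, hx, rfl⟩
    exact Submodule.tmul_mem_baseChange_of_mem (1 : F) (Submodule.pow_subset_pow _ hx)
  have hMfg : M.FG := Module.Finite.iff_fg.mp inferInstance
  have hMK : Module.Finite k ↥(M ^ K) := Module.Finite.iff_fg.mpr (hMfg.pow K)
  let b := Module.finBasis k ↥(M ^ K)
  have hspan : M ^ K = Submodule.span k (Set.range fun i => (b i : F)) := by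
    have h2 := congrArg (Submodule.map (M ^ K).subtype) b.span_eq
    rw [Submodule.map_span, Submodule.map_top, Submodule.range_subtype, ← Set.range_comp] at h2
    exact h2.symm
  have hbc : (M ^ K).baseChange F =
      Submodule.span F (Set.range fun i => (1 : F) ⊗ₜ[k] (b i : F)) := by
    conv_lhs => rw [hspan]
    rw [Submodule.baseChange_span, ← Set.range_comp]
    rfl
  have hfin : Module.Finite F ↥((M ^ K).baseChange F) := by
    rw [hbc]
    exact FiniteDimensional.span_of_finite F (Set.finite_range _)
  refine (Submodule.finrank_mono hle).trans ?_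
  rw [hbc]
  refine (finrank_range_le_card (R := F) fun i => (1 : F) ⊗ₜ[k] (b i : F)).trans ?_
  rw [Fintype.card_fin]

end Pool.Agent.SYZ71Z
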