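import Pool.Agent.SYZ71Z.ZDefs

/-!
# SYZ71Z/ZUnit : `F ⊗ F` is generated by `V = M.baseChange F` up to units

Every `y ∈ F` is `x / s` with `x, s ∈ k[M]`, `s ≠ 0`, as
`IntermediateField.adjoin k M = ⊤` (`IntermediateField.mem_adjoin_iff_div`); so for
`a = ∑ c_i ⊗ y_i` there is a common `s ∈ k[M]`, `s ≠ 0`, with `s * y_i ∈ k[M]`
(or: the set of `a` satisfying the claim with `s` of the form `1 ⊗ s₀`, `s₀ ∈ k[M]`, `s₀ ≠ 0` is
closed under addition and contains pure tensors); the element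
`1 ⊗ s` is a unit (inverse `1 ⊗ s⁻¹`), it lies in `F[V]`
(`x ∈ k[M] → 1 ⊗ x ∈ F[V]`: `Algebra.adjoin_induction`) and `(1 ⊗ s) * a = ∑ c_i ⊗ (s y_i) ∈ F[V]`.
-/

set_option autoImplicit false

open Module TensorProduct

universe u v

namespace Pool.Agent.SYZ71Z

variable {k : Type v} {F : Type u} [Field k] [Field F] [Algebra k F]

theorem tensor_units (M : Submodule k F)
    (hadj : IntermediateField.adjoin k (M : Set F) = ⊤) (a : F ⊗[k] F) :
    ∃ s ∈ Algebra.adjoin F ((M.baseChange F : Submodule F (F ⊗[k] F)) : Set (F ⊗[k] F)),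
      IsUnit s ∧
      s * a ∈ Algebra.adjoin F ((M.baseChange F : Submodule F (F ⊗[k] F)) : Set (F ⊗[k] F)) := by
  set R := Algebra.adjoin F ((M.baseChange F : Submodule F (F ⊗[k] F)) : Set (F ⊗[k] F)) with hR
  have hinc : ∀ x ∈ Algebra.adjoin k (M : Set F), (1 : F) ⊗ₜ[k] x ∈ R := by
    intro x hx
    induction hx using Algebra.adjoin_induction with
    | mem x hx => exact Algebra.subset_adjoin (Submodule.tmul_mem_baseChange_of_mem (1 : F) hx)
    | algebraMap c =>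
      have h : (1 : F) ⊗ₜ[k] (algebraMap k F c) = algebraMap F (F ⊗[k] F) (algebraMap k F c) := by
        rw [Algebra.TensorProduct.algebraMap_apply, Algebra.algebraMap_self_apply,
          Algebra.algebraMap_eq_smul_one, TensorProduct.tmul_smul, TensorProduct.smul_tmul']
      rw [h]
      exact R.algebraMap_mem _
    | add x y _ _ hx hy =>
      rw [TensorProduct.tmul_add]
      exact R.add_mem hx hy
    | mul x y _ _ hx hy =>
      have h : (1 : F) ⊗ₜ[k] (x * y) = ((1 : F) ⊗ₜ[k] x) * ((1 : F) ⊗ₜ[k] y) := by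
        rw [Algebra.TensorProduct.tmul_mul_tmul, one_mul]
      rw [h]
      exact R.mul_mem hx hy
  have key : ∃ s₀ ∈ Algebra.adjoin k (M : Set F), s₀ ≠ 0 ∧ ((1 : F) ⊗ₜ[k] s₀) * a ∈ R := by
    induction a with
    | zero => exact ⟨1, Subalgebra.one_mem _, one_ne_zero, by rw [mul_zero]; exact R.zero_mem⟩
    | tmul c y =>
      have hy : y ∈ IntermediateField.adjoin k (M : Set F) := by
        rw [hadj]
        exact IntermediateField.mem_top
      obtain ⟨p, hp, q, hq, hpq⟩ := IntermediateField.mem_adjoin_iff_div.mp hy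
      by_cases hq0 : q = 0
      · have hy0 : y = 0 := by rw [hpq, hq0, div_zero]
        refine ⟨1, Subalgebra.one_mem _, one_ne_zero, ?_⟩
        rw [hy0, TensorProduct.tmul_zero, mul_zero]
        exact R.zero_mem
      · refine ⟨q, hq, hq0, ?_⟩
        have h : ((1 : F) ⊗ₜ[k] q) * (c ⊗ₜ[k] y) = c • ((1 : F) ⊗ₜ[k] p) := by
          rw [Algebra.TensorProduct.tmul_mul_tmul, one_mul, hpq, mul_div_cancel₀ _ hq0,
            TensorProduct.smul_tmul', smul_eq_mul, mul_one]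
        rw [h]
        exact R.smul_mem (hinc p hp) c
    | add x y hx hy =>
      obtain ⟨s, hs, hs0, hsx⟩ := hx
      obtain ⟨t, ht, ht0, hty⟩ := hy
      refine ⟨s * t, Subalgebra.mul_mem _ hs ht, mul_ne_zero hs0 ht0, ?_⟩
      have h : ((1 : F) ⊗ₜ[k] (s * t)) * (x + y) =
          ((1 : F) ⊗ₜ[k] t) * (((1 : F) ⊗ₜ[k] s) * x) +
            ((1 : F) ⊗ₜ[k] s) * (((1 : F) ⊗ₜ[k] t) * y) := by
        have h2 : (1 : F) ⊗ₜ[k] (s * t) = ((1 : F) ⊗ₜ[k] s) * ((1 : F) ⊗ₜ[k] t) := by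
          rw [Algebra.TensorProduct.tmul_mul_tmul, one_mul]
        rw [h2]
        ring
      rw [h]
      exact R.add_mem (R.mul_mem (hinc t ht) hsx) (R.mul_mem (hinc s hs) hty)
  obtain ⟨s, hs, hs0, hsa⟩ := key
  refine ⟨(1 : F) ⊗ₜ[k] s, hinc s hs, ?_, hsa⟩
  refine IsUnit.of_mul_eq_one ((1 : F) ⊗ₜ[k] s⁻¹) ?_
  rw [Algebra.TensorProduct.tmul_mul_tmul, one_mul, mul_inv_cancel₀ hs0]
  rfl

end Pool.Agent.SYZ71Z
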