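import Pool.Agent.SYZ71Z.ZBez
import Pool.Agent.SYZ71Z.ZFix
import Pool.Agent.SYZ71Z.ZTens
import Pool.Agent.SYZ71Z.ZUnit
import Pool.Agent.SYZ71Z.ZTrd
import Pool.Agent.SYZ71Z.ZLocDim

/-!
# SYZ71Z/ZAsm : assembly of the zero estimate
-/

set_option autoImplicit false

open Module TensorProduct

universe u v

namespace Pool.Agent.SYZ71Z

section Chain

variable {A : Type u} [CommRing A]

/-- Pigeonhole for a nondecreasing sequence of `N + 1` numbers in `[1, N]`. -/
theorem exists_eq_succ (N : ℕ) (h : ℕ → ℕ) (h1 : ∀ j, j ≤ N → 1 ≤ h j) (h2 : ∀ j, j ≤ N → h j ≤ N)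
    (h3 : ∀ j, j < N → h j ≤ h (j + 1)) : ∃ j, j < N ∧ h j = h (j + 1) := by
  by_contra hcon
  push Not at hcon
  have key : ∀ j, j ≤ N → j + 1 ≤ h j := by
    intro j
    induction j with
    | zero => intro _; simpa using h1 0 (Nat.zero_le _)
    | succ j ih =>
      intro hj
      have a1 := ih (by omega)
      have a2 := h3 j (by omega)
      have a3 := hcon j (by omega)
      omega
  have a1 := key N le_rfl
  have a2 := h2 N le_rfl
  omega

end Chain

variable {k : Type v} {F : Type u} [Field k] [Field F] [Algebra k F]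

theorem zero_est_aux [CharZero k]
    (hdom : IsDomain (F ⊗[k] F)) (N r w T₀ : ℕ) (hr : 1 ≤ r)
    (g : (Fin r → ℤ) → (F ≃ₐ[k] F)) (hg : ∀ u v, g (u + v) = g u * g v)
    (htr : Algebra.trdeg k F = N) (B M : Submodule k F)
    [Module.Finite k B] [Module.Finite k M] (h1 : (1 : F) ∈ M)
    (hadj : IntermediateField.adjoin k (M : Set F) = ⊤)
    (hβ : ∀ u : Fin r → ℕ, (∀ i, u i ≤ N * w) →
      ∃ β : F, β ≠ 0 ∧ ∀ b ∈ B, β * g (fun i => (u i : ℤ)) b ∈ M)
    (hT : ∀ K : ℕ, 1 ≤ K → finrank k ↥(M ^ K) ≤ T₀ * K ^ N)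
    (hbig : N.factorial * T₀ < (w + 1) ^ r)
    (m : ℕ) (b : Fin m → F) (hb : ∀ i, b i ∈ B)
    (hlin : ∀ v, v ≠ 0 → ∀ c : Fin m → F, (∀ i, g v (c i) = c i) → ∑ i, c i * b i = 0 → c = 0)
    (c : Fin m → F)
    (hz : ∀ v : Fin r → ℕ, (∀ i, v i ≤ (N + 1) * w) →
      ∑ i, c i * g (fun j => (v j : ℤ)) (b i) = 0) :
    c = 0 := by
  classical
  by_contra hc
  have hF : CharZero F := charZero_of_injective_algebraMap (algebraMap k F).injective
  have hnoe : IsNoetherianRing (F ⊗[k] F) := tensor_noeth M hadj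
  set V : Submodule F (F ⊗[k] F) := M.baseChange F with hV
  have hVfin : Module.Finite F V := finite_baseChange M
  have h1V : (1 : F ⊗[k] F) ∈ V := by
    rw [Algebra.TensorProduct.one_def]
    exact Submodule.tmul_mem_baseChange_of_mem 1 h1
  have hloc := tensor_units M hadj
  have hdim : DimProp F (F ⊗[k] F) N := dimProp_of_units V hloc N (tensor_trdeg N htr)
  have hTV : ∀ K : ℕ, 1 ≤ K → finrank F ↥(V ^ K) ≤ T₀ * K ^ N := fun K hK =>
    (finrank_baseChange_pow M K).trans (hT K hK)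
  -- the element x
  set x : F ⊗[k] F := ∑ i, c i ⊗ₜ[k] b i with hxdef
  have hx0 : x ≠ 0 := by
    intro h0
    refine hc (sum_tmul_eq_zero b ?_ c h0)
    rw [Fintype.linearIndependent_iff]
    intro a ha
    have hv : (Pi.single ⟨0, hr⟩ (1 : ℤ) : Fin r → ℤ) ≠ 0 := by
      intro hcon
      have := congrFun hcon ⟨0, hr⟩
      simp at this
    have h3 := hlin _ hv (fun i => algebraMap k F (a i)) (fun i => AlgEquiv.commutes _ _) (by
      rw [← ha]
      exact Finset.sum_congr rfl fun i _ => (Algebra.smul_def _ _).symm)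
    intro i
    have h4 := congrFun h3 i
    exact (map_eq_zero_iff _ (algebraMap k F).injective).mp h4
  -- natural boxes
  let G : (Fin r → ℕ) → (F ≃ₐ[k] F) := fun u => g (fun i => (u i : ℤ))
  have hG : ∀ u v : Fin r → ℕ, G (u + v) = G u * G v := by
    intro u v
    refine Eq.trans (congrArg g ?_) (hg _ _)
    funext i
    simp
  have hG0 : G 0 = 1 := by
    have h2 := hG 0 0
    rw [add_zero] at h2
    exact (mul_eq_left.mp h2.symm)
  have hev : ∀ v : Fin r → ℕ, (∀ i, v i ≤ (N + 1) * w) → ev (G v) x = 0 := by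
    intro v hv
    rw [hxdef, map_sum, ← hz v hv]
    refine Finset.sum_congr rfl fun i _ => ?_
    rw [ev_tmul]
  -- generators
  let S : ℕ → Set (F ⊗[k] F) := fun j =>
    {y | y ∈ V ∧ ∃ u : Fin r → ℕ, (∀ i, u i ≤ j * w) ∧ ∃ s : F ⊗[k] F, IsUnit s ∧
      y = s * tau (G u) x}
  have hSV : ∀ j, S j ⊆ (V : Set (F ⊗[k] F)) := fun j y hy => hy.1
  have hSmem : ∀ j, j ≤ N → ∀ u : Fin r → ℕ, (∀ i, u i ≤ j * w) →
      tau (G u) x ∈ Ideal.span (S j) := by
    intro j hj u hu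
    obtain ⟨β, hβ0, hβM⟩ := hβ u (fun i => (hu i).trans (Nat.mul_le_mul_right _ hj))
    have hun : IsUnit ((1 : F) ⊗ₜ[k] β) := by
      refine IsUnit.of_mul_eq_one ((1 : F) ⊗ₜ[k] β⁻¹) ?_
      rw [Algebra.TensorProduct.tmul_mul_tmul, one_mul, mul_inv_cancel₀ hβ0]
      rfl
    have hmem : ((1 : F) ⊗ₜ[k] β) * tau (G u) x ∈ S j := by
      refine ⟨?_, u, hu, _, hun, rfl⟩
      rw [hxdef, map_sum, Finset.mul_sum]
      refine Submodule.sum_mem _ fun i _ => ?_
      rw [tau_tmul, Algebra.TensorProduct.tmul_mul_tmul, one_mul]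
      exact Submodule.tmul_mem_baseChange_of_mem _ (hβM _ (hb i))
    have h2 := Ideal.subset_span (s := S j) hmem
    exact (Ideal.unit_mul_mem_iff_mem _ hun).mp h2
  have hSle : ∀ j (P : Ideal (F ⊗[k] F)), (∀ u : Fin r → ℕ, (∀ i, u i ≤ j * w) →
      tau (G u) x ∈ P) → Ideal.span (S j) ≤ P := by
    intro j P hP
    rw [Ideal.span_le]
    rintro y ⟨-, u, hu, s, -, rfl⟩
    exact Ideal.mul_mem_left _ _ (hP u hu)
  -- admissible primes
  let Adm : ℕ → Ideal (F ⊗[k] F) → Prop := fun j P =>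
    P ∈ (Ideal.span (S j)).minimalPrimes ∧
      ∃ v : Fin r → ℕ, (∀ i, v i ≤ (N + 1 - j) * w) ∧ P ≤ mker (G v)
  have hbox : ∀ j, j ≤ N → ∀ u v : Fin r → ℕ, (∀ i, u i ≤ j * w) →
      (∀ i, v i ≤ (N + 1 - j) * w) → ∀ i, (v + u) i ≤ (N + 1) * w := by
    intro j hj u v hu hv i
    have e1 := hu i
    have e2 := hv i
    have e3 : (N + 1 - j) * w + j * w = (N + 1) * w := by
      rw [← add_mul]
      congr 1
      omega
    simp only [Pi.add_apply]
    omega
  have hJle : ∀ j, j ≤ N → ∀ v : Fin r → ℕ, (∀ i, v i ≤ (N + 1 - j) * w) →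
      Ideal.span (S j) ≤ mker (G v) := by
    intro j hj v hv
    refine hSle j _ fun u hu => ?_
    rw [mem_mker, ev_tau, ← hG]
    exact hev _ (hbox j hj u v hu hv)
  -- below every prime that contains the generators and lies below a point there is an
  -- admissible prime
  have hAdm : ∀ j, ∀ P : Ideal (F ⊗[k] F), P.IsPrime → Ideal.span (S j) ≤ P →
      (∃ v : Fin r → ℕ, (∀ i, v i ≤ (N + 1 - j) * w) ∧ P ≤ mker (G v)) →
      ∃ P', Adm j P' ∧ P' ≤ P := by
    rintro j P hP hle ⟨v, hv, hPv⟩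
    obtain ⟨P', hP', hP'P⟩ := Ideal.exists_minimalPrimes_le hle
    exact ⟨P', ⟨hP', v, hv, hP'P.trans hPv⟩, hP'P⟩
  have hexAdm : ∀ j, j ≤ N → ∃ P, Adm j P := by
    intro j hj
    obtain ⟨P, hP, -⟩ := hAdm j (mker (G 0)) (mker_isPrime _)
      (hJle j hj 0 (fun i => Nat.zero_le _)) ⟨0, fun i => Nat.zero_le _, le_rfl⟩
    exact ⟨P, hP⟩
  have hfinh : ∀ P : Ideal (F ⊗[k] F), P.IsPrime → ∃ n : ℕ, P.height = (n : ℕ∞) := by
    intro P hP
    have : P.height ≠ ⊤ := Ideal.height_ne_top hP.ne_top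
    exact ⟨_, (ENat.natCast_toNat this).symm⟩
  -- minimal height
  have hmin : ∀ j, ∃ n : ℕ, j ≤ N → ((∃ P, Adm j P ∧ P.height = (n : ℕ∞)) ∧
      ∀ P, Adm j P → (n : ℕ∞) ≤ P.height) := by
    intro j
    by_cases hj : j ≤ N
    · have hex : ∃ n : ℕ, ∃ P, Adm j P ∧ P.height = (n : ℕ∞) := by
        obtain ⟨P, hP⟩ := hexAdm j hj
        obtain ⟨n, hn⟩ := hfinh P hP.1.1.1
        exact ⟨n, P, hP, hn⟩
      refine ⟨Nat.find hex, fun _ => ⟨Nat.find_spec hex, fun P hP => ?_⟩⟩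
      obtain ⟨n, hn⟩ := hfinh P hP.1.1.1
      rw [hn]
      exact_mod_cast Nat.find_min' hex ⟨P, hP, hn⟩
    · exact ⟨0, fun h => absurd h hj⟩
  choose h hh using hmin
  have hxS : ∀ j, j ≤ N → x ∈ Ideal.span (S j) := by
    intro j hj
    have := hSmem j hj 0 (fun i => Nat.zero_le _)
    rwa [hG0, tau_one] at this
  have hh1 : ∀ j, j ≤ N → 1 ≤ h j := by
    intro j hj
    obtain ⟨⟨P, hP, hPh⟩, -⟩ := hh j hj
    by_contra hcon
    have h0 : h j = 0 := by omega
    rw [h0, Nat.cast_zero] at hPh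
    have hPp := hP.1.1.1
    have hmp : P ∈ minimalPrimes (F ⊗[k] F) := Ideal.height_eq_zero_iff.mp hPh
    rw [IsDomain.minimalPrimes_eq_singleton_bot, Set.mem_singleton_iff] at hmp
    have hxP := hP.1.1.2 (hxS j hj)
    rw [hmp] at hxP
    exact hx0 (by simpa using hxP)
  have hbez : ∀ j, j ≤ N → ∀ {ι : Type} [Fintype ι] [Nonempty ι] (p : ι → Ideal (F ⊗[k] F)),
      Function.Injective p → (∀ i, p i ∈ (Ideal.span (S j)).minimalPrimes) →
      (∀ i, (p i).height = (h j : ℕ∞)) → h j ≤ N ∧ Fintype.card ι ≤ N.factorial * T₀ := by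
    intro j _ ι _ _ p hinj hp hph
    exact bezout N T₀ V h1V hloc hdim hTV (S j) (hSV j) (h j) p hinj hp hph
  have hh2 : ∀ j, j ≤ N → h j ≤ N := by
    intro j hj
    obtain ⟨⟨P, hP, hPh⟩, -⟩ := hh j hj
    exact (hbez j hj (ι := Unit) (fun _ => P) (fun _ _ _ => rfl) (fun _ => hP.1)
      (fun _ => hPh)).1
  have hSmono : ∀ j, j < N → Ideal.span (S j) ≤ Ideal.span (S (j + 1)) := by
    intro j hj
    refine hSle j _ fun u hu => hSmem (j + 1) (by omega) u fun i => (hu i).trans ?_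
    exact Nat.mul_le_mul_right _ (Nat.le_succ j)
  have hh3 : ∀ j, j < N → h j ≤ h (j + 1) := by
    intro j hj
    obtain ⟨⟨P, hP, hPh⟩, -⟩ := hh (j + 1) (by omega)
    obtain ⟨hP1, v, hv, hPv⟩ := hP
    obtain ⟨P', hP', hP'P⟩ := hAdm j P hP1.1.1 ((hSmono j hj).trans hP1.1.2)
      ⟨v, fun i => (hv i).trans (Nat.mul_le_mul_right _ (by omega)), hPv⟩
    have h4 := (hh j (by omega)).2 P' hP'
    have h5 := h4.trans (Ideal.height_mono hP'P)
    rw [hPh] at h5
    exact_mod_cast h5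
  obtain ⟨j, hj, hjeq⟩ := exists_eq_succ N h hh1 hh2 hh3
  obtain ⟨⟨P, ⟨hP1, v, hv, hPv⟩, hPh⟩, -⟩ := hh (j + 1) (by omega)
  have hPprime := hP1.1.1
  -- translates
  let p : (Fin r → Fin (w + 1)) → Ideal (F ⊗[k] F) := fun u =>
    P.comap (tau (G fun i => ((u i : Fin (w + 1)) : ℕ)))
  have hpinj : Function.Injective p := by
    have hinj := comap_injective g hg (G v) P hPv m b hlin c hc
      (hP1.1.2 (hxS (j + 1) (by omega)))
    intro u u' huu
    have h4 := hinj huu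
    funext i
    have h5 := congrFun h4 i
    apply Fin.ext
    exact_mod_cast h5
  have hpprime : ∀ u, (p u).IsPrime := fun u => Ideal.comap_isPrime _ _
  have hpheight : ∀ u, (p u).height = (h j : ℕ∞) := by
    intro u
    rw [hjeq, ← hPh]
    exact RingEquiv.height_comap (tau (G fun i => ((u i : Fin (w + 1)) : ℕ))).toRingEquiv P
  have hpmin : ∀ u, p u ∈ (Ideal.span (S j)).minimalPrimes := by
    intro u
    set un : Fin r → ℕ := fun i => ((u i : Fin (w + 1)) : ℕ) with hun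
    have hule : ∀ i, un i ≤ w := fun i => Nat.lt_succ_iff.mp (u i).2
    have hle : Ideal.span (S j) ≤ p u := by
      refine hSle j _ fun u' hu' => ?_
      change tau (G un) (tau (G u') x) ∈ P
      rw [tau_tau, ← hG]
      refine hP1.1.2 (hSmem (j + 1) (by omega) _ fun i => ?_)
      have e1 := hule i
      have e2 := hu' i
      simp only [Pi.add_apply]
      rw [add_mul, one_mul]
      omega
    have hpt : p u ≤ mker (G (v + un)) := by
      intro y hy
      have h5 : tau (G un) y ∈ mker (G v) := hPv hy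
      rw [mem_mker, ev_tau, ← hG] at h5
      exact h5
    have hvu : ∀ i, (v + un) i ≤ (N + 1 - j) * w := by
      intro i
      have e1 := hule i
      have e2 := hv i
      have e3 : N + 1 - j = (N + 1 - (j + 1)) + 1 := by omega
      rw [e3, add_mul, one_mul]
      simp only [Pi.add_apply]
      omega
    obtain ⟨P', hP', hP'P⟩ := hAdm j (p u) (hpprime u) hle ⟨v + un, hvu, hpt⟩
    have h6 := (hh j (by omega)).2 P' hP'
    have hP'prime := hP'.1.1.1
    rcases hP'P.lt_or_eq with hlt | heq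
    · exfalso
      have h7 : P'.height < (p u).height :=
        Ideal.height_strict_mono_of_isPrime hlt
      rw [hpheight u] at h7
      exact absurd h6 (not_le.mpr h7)
    · rw [← heq]
      exact hP'.1
  have hfinal := (hbez j (by omega) p hpinj hpmin hpheight).2
  rw [Fintype.card_fun, Fintype.card_fin, Fintype.card_fin] at hfinal
  omega

end Pool.Agent.SYZ71Z
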