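import Pool.Agent.SYZ71Z.ZCut
import Pool.Agent.SYZ71Z.ZNum

/-!
# SYZ71Z/ZChain : `h` successive cuts

`A` a Noetherian domain over an infinite field `F`, `S ⊆ V`, `p i` (`i : ι`, finite nonempty family)
minimal primes of `J = Ideal.span S`, all of height `h`.  Then
`sumIter h (hilb V (⨅ i, p i)) K ≤ hilb V ⊥ K` for all `K`.

Proof.  For a finite set `s ⊆ A` let `P s = {q ∈ (Ideal.span s).minimalPrimes | ∃ i, q ≤ p i}`
(finite: `Ideal.finite_minimalPrimes_of_isNoetherianRing`) and `Q s = sInf (P s)`.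
Claim: for every `n ≤ h` there is a finite set `s ⊆ J` with `s.card ≤ n` and
`sumIter n (hilb V (Q s)) K ≤ hilb V ⊥ K` for all `K`.
* `n = 0`: `s = ∅`, `Ideal.span ∅ = ⊥`, minimal primes of `⊥` in a domain: `{⊥}`, and `⊥ ≤ p i`
  (nonempty `ι`), `Q ∅ = ⊥`.
* `n → n + 1 ≤ h`: for `q ∈ P s`, `q` has height `≤ s.card ≤ n < h`
  (`Ideal.height_le_card_of_mem_minimalPrimes_span_finset`, Krull), `q ≤ p i`, so `q ≠ p i`; if
  `J ≤ q` then by minimality of `p i` over `J`, `q = p i`, contradiction.  So `J ⊄ q`, i.e. the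
  `F`-subspace `W = Submodule.span F S ≤ V` is not contained in `q`
  (else `S ⊆ q`, `J ≤ q`).  `F` infinite, `P s` finite: there is `x ∈ W` outside all `q ∈ P s`
  (`Subspace.biUnion_ne_univ_of_top_notMem` applied to the subspaces `W ∩ q` of `W`).
  `x ∈ V`, `x ∈ J`.  Let `s' = insert x s`.  `Q s ≤ Q s'` and `x ∈ Q s'`: a `q' ∈ P s'` contains
  `span s`, hence contains a minimal prime `q` of `span s`
  (`Ideal.exists_minimalPrimes_le`), and `q ≤ q' ≤ p i`, so `q ∈ P s`, `Q s ≤ q ≤ q'`.
  If `x * a ∈ Q s` then for all `q ∈ P s`, `x ∉ q` so `a ∈ q`; so `a ∈ Q s`.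
  By `hilb_cut`: `∑_{j ≤ K} hilb V (Q s') j ≤ hilb V (Q s) K`; apply `sumIter_mono` and the
  definition of `sumIter (n+1)`.
* Finally `n = h`: for each `i`, `span s ≤ J ≤ p i`, so `p i` contains a minimal prime `q` of
  `span s`, `q ∈ P s`, `Q s ≤ q ≤ p i`; so `Q s ≤ ⨅ i, p i`, and `hilb_anti`, `sumIter_mono`.
-/

set_option autoImplicit false

open Module

namespace Pool.Agent.SYZ71Z

section

variable {A : Type*} [CommRing A] {ι : Type}

/-- the minimal primes of `span s` below one of the `p i` -/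
private def PP (p : ι → Ideal A) (s : Finset A) : Set (Ideal A) :=
  {q | q ∈ (Ideal.span (s : Set A)).minimalPrimes ∧ ∃ i, q ≤ p i}

private theorem PP_finite [IsNoetherianRing A] (p : ι → Ideal A) (s : Finset A) :
    (PP p s).Finite :=
  (Ideal.finite_minimalPrimes_of_isNoetherianRing A (Ideal.span (s : Set A))).subset
    fun _ hq => hq.1

private theorem PP_exists (p : ι → Ideal A) (s : Finset A) (i : ι) (q' : Ideal A)
    (hq' : q'.IsPrime) (hs : Ideal.span (s : Set A) ≤ q') (hi : q' ≤ p i) :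
    ∃ q ∈ PP p s, q ≤ q' := by
  haveI := hq'
  obtain ⟨q, hq, hle⟩ := Ideal.exists_minimalPrimes_le hs
  exact ⟨q, ⟨hq, i, hle.trans hi⟩, hle⟩

end

private theorem chain_aux {F A : Type*} [Field F] [Infinite F] [CommRing A] [Algebra F A]
    [IsNoetherianRing A] (V : Submodule F A) [Module.Finite F V]
    (S : Set A) (hS : S ⊆ (V : Set A)) (h : ℕ) {ι : Type}
    (p : ι → Ideal A) (hp : ∀ i, p i ∈ (Ideal.span S).minimalPrimes)
    (hh : ∀ i, (p i).height = (h : ℕ∞)) (n : ℕ) (hn : n ≤ h) :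
    ∃ s : Finset A, (s : Set A) ⊆ (Ideal.span S : Ideal A) ∧ s.card ≤ n ∧
      ∀ K, sumIter n (hilb V (sInf (PP p s))) K ≤ hilb V ⊥ K := by
  classical
  induction n with
  | zero =>
    refine ⟨∅, by simp, by simp, fun K => ?_⟩
    exact hilb_anti V ⊥ _ bot_le K
  | succ n ih =>
    obtain ⟨s, hsJ, hcard, hs⟩ := ih (by omega)
    -- no prime of `PP p s` contains `S`
    have hnot : ∀ q ∈ PP p s, ¬ S ⊆ (q : Set A) := by
      rintro q ⟨hqm, i, hqi⟩ hSq
      have hJq : Ideal.span S ≤ q := Ideal.span_le.mpr hSq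
      have hqp : q.IsPrime := hqm.1.1
      have h1 : p i ≤ q := (hp i).2 ⟨hqp, hJq⟩ hqi
      have h2 : p i = q := le_antisymm h1 hqi
      have h3 := Ideal.height_le_card_of_mem_minimalPrimes_span_finset hqm
      rw [← h2, hh i] at h3
      have h4 : h ≤ s.card := by exact_mod_cast h3
      omega
    -- avoidance
    let W : Submodule F A := Submodule.span F S
    have hWV : W ≤ V := Submodule.span_le.mpr hS
    have hWJ : ∀ x ∈ W, x ∈ Ideal.span S := by
      intro x hx
      have : W ≤ (Ideal.span S).restrictScalars F :=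
        Submodule.span_le.mpr fun y hy => Ideal.subset_span hy
      exact this hx
    obtain ⟨x, hxW, hxq⟩ : ∃ x ∈ W, ∀ q ∈ PP p s, x ∉ q := by
      let fs : Finset (Subspace F W) :=
        (PP_finite p s).toFinset.image fun q : Ideal A => (q.restrictScalars F).comap W.subtype
      have htop : ⊤ ∉ fs := by
        intro hmem
        obtain ⟨q, hq, hqt⟩ := Finset.mem_image.mp hmem
        rw [Set.Finite.mem_toFinset] at hq
        refine hnot q hq fun y hy => ?_
        have hyW : y ∈ W := Submodule.subset_span hy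
        have : (⟨y, hyW⟩ : W) ∈ (q.restrictScalars F).comap W.subtype := by
          rw [hqt]; trivial
        exact this
      have hne := Subspace.biUnion_ne_univ_of_top_notMem htop
      obtain ⟨⟨x, hxW⟩, hx⟩ := (Set.ne_univ_iff_exists_notMem _).mp hne
      refine ⟨x, hxW, fun q hq hxq => hx ?_⟩
      refine Set.mem_iUnion₂.mpr ⟨(q.restrictScalars F).comap W.subtype, ?_, hxq⟩
      exact Finset.mem_image.mpr ⟨q, (Set.Finite.mem_toFinset _).mpr hq, rfl⟩
    have hle : Ideal.span (s : Set A) ≤ Ideal.span ((insert x s : Finset A) : Set A) :=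
      Ideal.span_mono (by simp)
    refine ⟨insert x s, ?_, ?_, fun K => ?_⟩
    · intro y hy
      rcases Finset.mem_insert.mp (by exact_mod_cast hy) with rfl | hy
      · exact hWJ _ hxW
      · exact hsJ (by exact_mod_cast hy)
    · exact (Finset.card_insert_le _ _).trans (by omega)
    · have hcut := hilb_cut V (sInf (PP p s)) (sInf (PP p (insert x s))) (by
          refine le_sInf fun q' hq' => ?_
          obtain ⟨hqm, i, hqi⟩ := hq'
          obtain ⟨q, hq, hqq⟩ := PP_exists p s i q' hqm.1.1 (hle.trans hqm.1.2) hqi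
          exact (sInf_le hq).trans hqq) x (hWV hxW) (by
          rw [Ideal.mem_sInf]
          intro q' hq'
          exact hq'.1.1.2 (Ideal.subset_span (by simp))) (by
          intro a ha
          rw [Ideal.mem_sInf] at ha ⊢
          intro q hq
          exact (hq.1.1.1.mem_or_mem (ha hq)).resolve_left (hxq q hq))
      calc sumIter (n + 1) (hilb V (sInf (PP p (insert x s)))) K
          = sumIter n (fun K => ∑ j ∈ Finset.range (K + 1),
              hilb V (sInf (PP p (insert x s))) j) K := rfl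
        _ ≤ sumIter n (hilb V (sInf (PP p s))) K := sumIter_mono n _ _ hcut K
        _ ≤ hilb V ⊥ K := hs K

theorem hilb_chain {F A : Type*} [Field F] [Infinite F] [CommRing A] [IsDomain A] [Algebra F A]
    [IsNoetherianRing A] (V : Submodule F A) [Module.Finite F V]
    (S : Set A) (hS : S ⊆ (V : Set A)) (h : ℕ) {ι : Type} [Fintype ι] [Nonempty ι]
    (p : ι → Ideal A) (hp : ∀ i, p i ∈ (Ideal.span S).minimalPrimes)
    (hh : ∀ i, (p i).height = (h : ℕ∞)) (K : ℕ) :
    sumIter h (hilb V (⨅ i, p i)) K ≤ hilb V ⊥ K := by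
  obtain ⟨s, hsJ, -, hs⟩ := chain_aux V S hS h p hp hh h le_rfl
  refine le_trans (sumIter_mono h _ _ (fun K => hilb_anti V (sInf (PP p s)) _ ?_ K) K) (hs K)
  refine le_iInf fun i => ?_
  have hsp : Ideal.span (s : Set A) ≤ p i := (Ideal.span_le.mpr hsJ).trans (hp i).1.2
  obtain ⟨q, hq, hqq⟩ := PP_exists p s i (p i) (hp i).1.1 hsp le_rfl
  exact (sInf_le hq).trans hqq

end Pool.Agent.SYZ71Z
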