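import Pool.Agent.SYZ71Z.ZDefs

/-!
# SYZ71Z/ZSep : Hilbert function of an intersection of pairwise incomparable primes

Proof.  For each `i` there is `c_i ∈ ⨅_{j ≠ i} p j` with `c_i ∉ p i`
(`Ideal.IsPrime.inf_le'`-type lemma / prime avoidance: product over `j ≠ i` of elements
`c_ij ∈ p j \ p i`).  By `hloc` choose a unit `s_i ∈ F[V]` with `s_i * c_i ∈ F[V]`; replace `c_i` by
`s_i * c_i` (still in `⨅_{j ≠ i} p j`, still not in `p i`).  `F[V] = ⋃_K V ^ K` as `1 ∈ V`
(`Algebra.adjoin_eq_span_...`, `Submodule.pow` facts: by `Algebra.adjoin_induction`), so there is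
`K₀` with all `c_i ∈ V ^ K₀`.
Given `K`, let `W_i = (V ^ K).map (mk (p i))`.  Choose a linear section: for each `i` a linear map
`σ_i : W_i → V ^ K` with `mk (p i) (σ_i w) = w` (`LinearMap.exists_rightInverse_of_surjective`).
The map `Π i, W_i → (V ^ (K + K₀)).map (mk (⨅ p))`, `(w_i) ↦ mk (∑ i, c_i * σ_i (w_i))` is
injective: if `∑ i c_i σ_i(w_i) ∈ ⨅ p` then modulo `p i` only the `i`-th term survives, so
`c_i σ_i (w_i) ∈ p i`, `σ_i (w_i) ∈ p i`, `w_i = 0`.  Compare `finrank` of `Π i, W_i`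
(`Module.finrank_pi_fintype`) with that of the target
(`LinearMap.finrank_le_finrank_of_injective`; the target is finite dimensional).
-/

set_option autoImplicit false

open Module

universe u

namespace Pool.Agent.SYZ71Z

private theorem sep_finPow {F A : Type u} [Field F] [CommRing A] [Algebra F A]
    (V : Submodule F A) [Module.Finite F V] (K : ℕ) : Module.Finite F ↥(V ^ K) :=
  Module.Finite.iff_fg.mpr ((Module.Finite.iff_fg.mp (inferInstance : Module.Finite F V)).pow K)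

private theorem sep_pow_le {F A : Type u} [Field F] [CommRing A] [Algebra F A]
    (V : Submodule F A) (h1 : (1 : A) ∈ V) {s t : ℕ} (hst : s ≤ t) : V ^ s ≤ V ^ t := by
  induction t, hst using Nat.le_induction with
  | base => exact le_rfl
  | succ n _ ih =>
    refine ih.trans ?_
    intro x hx
    have := Submodule.mul_mem_mul hx h1
    rwa [mul_one, ← pow_succ] at this

private theorem sep_adjoin {F A : Type u} [Field F] [CommRing A] [Algebra F A]
    (V : Submodule F A) (h1 : (1 : A) ∈ V) (x : A) (hx : x ∈ Algebra.adjoin F (V : Set A)) :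
    ∃ K, x ∈ V ^ K := by
  induction hx using Algebra.adjoin_induction with
  | mem x hx => exact ⟨1, by simpa using hx⟩
  | algebraMap r =>
    refine ⟨1, ?_⟩
    rw [pow_one, Algebra.algebraMap_eq_smul_one]
    exact V.smul_mem r h1
  | add x y _ _ hx hy =>
    obtain ⟨s, hs⟩ := hx
    obtain ⟨t, ht⟩ := hy
    exact ⟨max s t, Submodule.add_mem _ (sep_pow_le V h1 (le_max_left s t) hs)
      (sep_pow_le V h1 (le_max_right s t) ht)⟩
  | mul x y _ _ hx hy =>
    obtain ⟨s, hs⟩ := hx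
    obtain ⟨t, ht⟩ := hy
    exact ⟨s + t, by rw [pow_add]; exact Submodule.mul_mem_mul hs ht⟩

private theorem sep_exists {A : Type u} [CommRing A] {ι : Type} [Fintype ι] (p : ι → Ideal A)
    (hp : ∀ i, (p i).IsPrime)
    (hpw : ∀ i j, i ≠ j → ¬ p i ≤ p j) (i : ι) : ∃ a : A, a ∉ p i ∧ ∀ j, j ≠ i → a ∈ p j := by
  classical
  have h1 : ∀ j, ∃ a : A, (j ≠ i → a ∈ p j) ∧ a ∉ p i := by
    intro j
    by_cases hj : j = i
    · refine ⟨1, fun h => absurd hj h, ?_⟩
      exact (Ideal.ne_top_iff_one _).mp (hp i).ne_top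
    · obtain ⟨a, ha, hb⟩ := Set.not_subset.mp (hpw j i hj)
      exact ⟨a, fun _ => ha, hb⟩
  choose a ha hb using h1
  refine ⟨∏ j, a j, ?_, ?_⟩
  · rw [(hp i).prod_mem_iff]
    rintro ⟨j, -, hj⟩
    exact hb j hj
  · intro j hj
    exact Ideal.mem_of_dvd _ (Finset.dvd_prod_of_mem a (Finset.mem_univ j)) (ha j hj)

theorem hilb_sep {F A : Type u} [Field F] [CommRing A] [Algebra F A]
    (V : Submodule F A) [Module.Finite F V] (h1 : (1 : A) ∈ V)
    (hloc : ∀ a : A, ∃ s ∈ Algebra.adjoin F (V : Set A), IsUnit s ∧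
      s * a ∈ Algebra.adjoin F (V : Set A))
    {ι : Type} [Fintype ι] (p : ι → Ideal A) (hp : ∀ i, (p i).IsPrime)
    (hne : ∀ i j, i ≠ j → ¬ p i ≤ p j) :
    ∃ K₀ : ℕ, ∀ K : ℕ, ∑ i, hilb V (p i) K ≤ hilb V (⨅ i, p i) (K + K₀) := by
  classical
  have h2 : ∀ i, ∃ a : A, a ∉ p i ∧ (∀ j, j ≠ i → a ∈ p j) ∧ ∃ s, a ∈ V ^ s := by
    intro i
    obtain ⟨a, ha, hb⟩ := sep_exists p hp hne i
    obtain ⟨u, -, hu, hs⟩ := hloc a
    refine ⟨u * a, ?_, fun j hj => Ideal.mul_mem_left _ _ (hb j hj), sep_adjoin V h1 _ hs⟩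
    intro hc
    rcases (hp i).mem_or_mem hc with h3 | h3
    · exact (hp i).ne_top (Ideal.eq_top_of_isUnit_mem _ h3 hu)
    · exact ha h3
  choose a ha hb s1 hs1 using h2
  refine ⟨∑ i, s1 i, fun K => ?_⟩
  set s0 := ∑ i, s1 i with hs0
  have hs1' : ∀ i, a i ∈ V ^ s0 := fun i =>
    sep_pow_le V h1
      (Finset.single_le_sum (f := s1) (fun _ _ => Nat.zero_le _) (Finset.mem_univ i)) (hs1 i)
  have hf1 := sep_finPow V K
  have hf2 := sep_finPow V (K + s0)
  set I : Ideal A := ⨅ i, p i with hI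
  have hle : ∀ i, I ≤ p i := fun i => iInf_le p i
  let ρ : (A ⧸ I) →ₗ[F] (∀ i, A ⧸ p i) :=
    LinearMap.pi fun i => (Ideal.Quotient.factorₐ F (hle i)).toLinearMap
  let W : Submodule F (A ⧸ I) := (V ^ (K + s0)).map (Ideal.Quotient.mkₐ F I).toLinearMap
  have hWf : Module.Finite F W := Module.Finite.map _ _
  let T : ∀ i, Submodule F (A ⧸ p i) := fun i =>
    (V ^ K).map (Ideal.Quotient.mkₐ F (p i)).toLinearMap
  have hTf : ∀ i, Module.Finite F (T i) := fun i => Module.Finite.map _ _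
  have hsum : ∑ i, hilb V (p i) K = finrank F (∀ i, T i) := by
    rw [Module.finrank_pi_fintype]
    rfl
  rw [hsum]
  let ψ : (∀ i, T i) →ₗ[F] (∀ i, A ⧸ p i) :=
    LinearMap.pi fun i => (LinearMap.mulLeft F (Ideal.Quotient.mk (p i) (a i))) ∘ₗ
      (T i).subtype ∘ₗ LinearMap.proj i
  have hψ : Function.Injective ψ := by
    intro x y hxy
    funext i
    have h3 : Ideal.Quotient.mk (p i) (a i) * (x i : A ⧸ p i) =
        Ideal.Quotient.mk (p i) (a i) * y i := congrFun hxy i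
    have := hp i
    have := Ideal.Quotient.isDomain (p i)
    have h4 : Ideal.Quotient.mk (p i) (a i) ≠ 0 := fun hc =>
      ha i (Ideal.Quotient.eq_zero_iff_mem.mp hc)
    exact Subtype.ext (mul_left_cancel₀ h4 h3)
  have hψr : LinearMap.range ψ ≤ LinearMap.range (ρ.domRestrict W) := by
    rintro _ ⟨x, rfl⟩
    have hx : ∀ i, ∃ y ∈ V ^ K, Ideal.Quotient.mk (p i) y = x i := by
      intro i
      obtain ⟨y, hy, hy2⟩ := (x i).2
      exact ⟨y, hy, hy2⟩
    choose y hy hy2 using hx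
    have hmem : ∑ i, a i * y i ∈ V ^ (K + s0) := by
      refine Submodule.sum_mem _ fun i _ => ?_
      have := Submodule.mul_mem_mul (hs1' i) (hy i)
      rwa [← pow_add, add_comm s0 K] at this
    refine ⟨⟨Ideal.Quotient.mk I (∑ i, a i * y i), ⟨_, hmem, rfl⟩⟩, ?_⟩
    funext i
    change Ideal.Quotient.factor (hle i) (Ideal.Quotient.mk I (∑ j, a j * y j)) =
      Ideal.Quotient.mk (p i) (a i) * (x i : A ⧸ p i)
    rw [Ideal.Quotient.factor_mk, map_sum, Finset.sum_eq_single i]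
    · rw [map_mul, hy2]
    · intro j _ hji
      rw [map_mul, Ideal.Quotient.eq_zero_iff_mem.mpr (hb j i (Ne.symm hji)), zero_mul]
    · intro hi
      exact absurd (Finset.mem_univ i) hi
  have h5 : finrank F (LinearMap.range ψ) = finrank F (∀ i, T i) :=
    LinearMap.finrank_range_of_inj hψ
  rw [← h5]
  calc finrank F (LinearMap.range ψ) ≤ finrank F (LinearMap.range (ρ.domRestrict W)) :=
        Submodule.finrank_mono hψr
    _ ≤ finrank F W := LinearMap.finrank_range_le _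
    _ = hilb V I (K + s0) := rfl

end Pool.Agent.SYZ71Z
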