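import Pool.Agent.SYZ71Z.ZHilb
import Pool.Agent.SYZ71Z.ZSep
import Pool.Agent.SYZ71Z.ZChain

/-!
# SYZ71Z/ZBez : the Bezout bound

`A` a Noetherian domain over an infinite field `F`, `V ∋ 1` finite dimensional, `A` generated by `V`
up to units, `dim V ^ K ≤ T₀ K ^ N`, `N ≤ height P + trdeg (A ⧸ P)` for all primes `P`.
If `p i` (`i : ι`) are distinct minimal primes, all of height `h`, of an ideal generated by elements
of `V`, then `h ≤ N` and `#ι ≤ N! * T₀`.

Proof.  `e` from `DimProp` can depend on `i`; take `e = N - h` (natural subtraction): if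
`N ≤ h + e_i` then `e ≤ e_i ≤ trdeg`.  The `p i` are pairwise incomparable
(`Ideal.height_strict_mono_of_isPrime` with finite heights).  `hilb_lower`, `hilb_sep`:
`card ι * (K + e).choose e ≤ hilb V (⨅ i, p i) (K + K₀)`; `hilb_chain`:
`sumIter h (hilb V (⨅ p)) K ≤ hilb V ⊥ K ≤ finrank (V ^ K) ≤ T₀ * K ^ N`; conclude by `numeric`.
-/

set_option autoImplicit false

open Module

universe u

namespace Pool.Agent.SYZ71Z

theorem bezout {F A : Type u} [Field F] [Infinite F] [CommRing A] [IsDomain A] [Algebra F A]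
    [IsNoetherianRing A] (N T₀ : ℕ) (V : Submodule F A) [Module.Finite F V] (h1 : (1 : A) ∈ V)
    (hloc : ∀ a : A, ∃ s ∈ Algebra.adjoin F (V : Set A), IsUnit s ∧
      s * a ∈ Algebra.adjoin F (V : Set A))
    (hdim : DimProp F A N)
    (hT : ∀ K : ℕ, 1 ≤ K → finrank F ↥(V ^ K) ≤ T₀ * K ^ N)
    (S : Set A) (hS : S ⊆ (V : Set A)) (h : ℕ) {ι : Type} [Fintype ι] [Nonempty ι]
    (p : ι → Ideal A) (hinj : Function.Injective p)
    (hp : ∀ i, p i ∈ (Ideal.span S).minimalPrimes)
    (hh : ∀ i, (p i).height = (h : ℕ∞)) :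
    h ≤ N ∧ Fintype.card ι ≤ N.factorial * T₀ := by
  classical
  have hprime : ∀ i, (p i).IsPrime := fun i => (hp i).1.1
  have hne : ∀ i j, i ≠ j → ¬ p i ≤ p j := by
    intro i j hij hle
    have h2 : p j ≤ p i := (hp j).2 ⟨hprime i, (hp i).1.2⟩ hle
    exact hij (hinj (le_antisymm hle h2))
  obtain ⟨K₀, hK₀⟩ := hilb_sep V h1 hloc p hprime hne
  have hlow : ∀ i K, (K + (N - h)).choose (N - h) ≤ hilb V (p i) K := by
    intro i K
    obtain ⟨e, he, hte⟩ := hdim (p i) (hprime i) h (le_of_eq (hh i))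
    refine hilb_lower V h1 hloc (p i) (hprime i) (N - h) (le_trans ?_ hte) K
    exact_mod_cast (by omega : N - h ≤ e)
  have hf : ∀ K, Fintype.card ι * (K + (N - h)).choose (N - h) ≤
      hilb V (⨅ i, p i) (K + K₀) := by
    intro K
    refine le_trans ?_ (hK₀ K)
    calc Fintype.card ι * (K + (N - h)).choose (N - h)
        = ∑ _i : ι, (K + (N - h)).choose (N - h) := by
          rw [Finset.sum_const, Finset.card_univ, smul_eq_mul]
      _ ≤ ∑ i, hilb V (p i) K := Finset.sum_le_sum fun i _ => hlow i K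
  have hs : ∀ K, 1 ≤ K → sumIter h (hilb V (⨅ i, p i)) K ≤ T₀ * K ^ N := by
    intro K hK
    refine le_trans (hilb_chain V S hS h p hp hh K) (le_trans ?_ (hT K hK))
    have hfg : (V ^ K).FG := Submodule.FG.pow (Module.Finite.iff_fg.1 inferInstance) K
    have : Module.Finite F ↥(V ^ K) := Module.Finite.iff_fg.2 hfg
    exact Submodule.finrank_map_le _ _
  exact numeric (Fintype.card ι) N (N - h) h K₀ T₀ Fintype.card_pos (by omega) _ hf hs

end Pool.Agent.SYZ71Z
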