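import Mathlib

/-!
# SYZ71Z/ZDefs : definitions for the zero estimate (part Z of SYZ71, problem `MP_b96d42_ag`)

* `hilb V Q K` : the Hilbert function `dim_F` of the image of `V ^ K` in `A ⧸ Q`;
* `sumIter h f` : the `h`-fold iterated partial sum of `f`;
* `DimProp F A N` : for every prime `P` of `A` of height `≤ h` one has `N ≤ h + trdeg_F (A ⧸ P)`;
* `ev σ : F ⊗[k] F →ₐ[F] F`, `a ⊗ b ↦ a * σ b`;
* `tau σ : F ⊗[k] F ≃ₐ[F] F ⊗[k] F`, `a ⊗ b ↦ a ⊗ σ b`.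
-/

set_option autoImplicit false

open Module TensorProduct

universe u v

namespace Pool.Agent.SYZ71Z

/-- Hilbert function: dimension of the image of `V ^ K` in `A ⧸ Q`. -/
noncomputable def hilb {F A : Type*} [Field F] [CommRing A] [Algebra F A] (V : Submodule F A)
    (Q : Ideal A) (K : ℕ) : ℕ :=
  finrank F ↥((V ^ K).map (Ideal.Quotient.mkₐ F Q).toLinearMap)

/-- Iterated partial sums: `sumIter 0 f = f`, `sumIter (h+1) f = sumIter h (K ↦ ∑_{j ≤ K} f j)`. -/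
def sumIter : ℕ → (ℕ → ℕ) → ℕ → ℕ
  | 0, f => f
  | h + 1, f => sumIter h (fun K => ∑ j ∈ Finset.range (K + 1), f j)

/-- Dimension property: `N ≤ height P + trdeg_F (A ⧸ P)` for every prime `P`. -/
def DimProp (F A : Type u) [Field F] [CommRing A] [Algebra F A] (N : ℕ) : Prop :=
  ∀ (P : Ideal A), P.IsPrime → ∀ h : ℕ, P.height ≤ (h : ℕ∞) →
    ∃ e : ℕ, N ≤ h + e ∧ (e : Cardinal.{u}) ≤ Algebra.trdeg F (A ⧸ P)

section Tensor

variable {k : Type v} {F : Type u} [Field k] [Field F] [Algebra k F]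

/-- Evaluation at `σ`: `a ⊗ b ↦ a * σ b`. -/
noncomputable def ev (σ : F ≃ₐ[k] F) : F ⊗[k] F →ₐ[F] F :=
  Algebra.TensorProduct.lift (AlgHom.id F F) (σ : F →ₐ[k] F) (fun _ _ => mul_comm _ _)

@[simp] theorem ev_tmul (σ : F ≃ₐ[k] F) (a b : F) : ev σ (a ⊗ₜ[k] b) = a * σ b := by
  simp [ev]

/-- The `F`-linear extension of `σ` to `F ⊗ F`: `a ⊗ b ↦ a ⊗ σ b`. -/
noncomputable def tau (σ : F ≃ₐ[k] F) : F ⊗[k] F ≃ₐ[F] F ⊗[k] F :=
  Algebra.TensorProduct.congr AlgEquiv.refl σ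

@[simp] theorem tau_tmul (σ : F ≃ₐ[k] F) (a b : F) :
    tau σ (a ⊗ₜ[k] b) = a ⊗ₜ[k] σ b := by
  simp [tau]

theorem ev_tau (σ ρ : F ≃ₐ[k] F) (x : F ⊗[k] F) : ev σ (tau ρ x) = ev (σ * ρ) x := by
  induction x with
  | zero => simp
  | tmul a b => simp
  | add x y hx hy => simp [hx, hy]

theorem tau_tau (σ ρ : F ≃ₐ[k] F) (x : F ⊗[k] F) : tau σ (tau ρ x) = tau (σ * ρ) x := by
  induction x with
  | zero => simp
  | tmul a b => simp
  | add x y hx hy => simp [hx, hy]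

theorem tau_one (x : F ⊗[k] F) : tau (1 : F ≃ₐ[k] F) x = x := by
  induction x with
  | zero => simp
  | tmul a b => simp
  | add x y hx hy => simp [hx, hy]

end Tensor

end Pool.Agent.SYZ71Z
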