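import Pool.Agent.SYZ71Z.ZOrb

/-!
# SYZ71Z/ZDom : `F ⊗ F` is a domain

`mker σ = ker (ev σ)`, prime ideal of `A = F ⊗[k] F`; `comap (tau ρ) (mker σ) = mker (σ * ρ)`
(`ev_tau`).

`prime_eq_bot`: let `σ` have only constants fixed (`σ = g d`, `d ≠ 0`), `q` an ideal with
`comap (tau σ) q = q` and `q ≤ mker ρ`.  Then `q = ⊥`: for `x ∈ q` and `j : ℤ`,
`tau (σ^j) x ∈ q` (for `j ≥ 0` by iterating `q = comap (tau σ) q`; for `j < 0` as `tau σ` is
bijective, `tau (σ⁻¹) = (tau σ).symm` by `tau_tau`, `tau_one`), so `ev (ρ * σ^j) x = 0`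
(`ev_tau`); `orbit_zero`.

`tensor_isDomain`: let `d = Pi.single 0 1 : Fin r → ℤ` (`r ≥ 1`), `σ = g d`; `σ ^ i = g (i • d)`.
`A` is Noetherian so it has finitely many minimal primes
(`minimalPrimes.finite_of_isNoetherianRing`).  Choose a minimal prime `p ≤ mker 1`
(`Ideal.exists_minimalPrimes_le` for `⊥ ≤ mker 1`).  For `i : ℕ` the ideal
`p_i = comap (tau (σ ^ i)) p` is a minimal prime (ring automorphism).  By pigeonhole
`p_i = p_j` with `i < j`; so with `n = j - i ≥ 1`, `comap (tau (σ ^ n)) p = p`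
(apply the inverse of `comap (tau (σ ^ i))`).  `σ ^ n = g (n • d)`, `n • d ≠ 0`, so by
`prime_eq_bot` `p = ⊥`; `⊥` is prime, i.e. `A` is a domain (`Ideal.isDomain_of_bot_prime`-like:
`IsDomain.of_bot_isPrime`).
-/

set_option autoImplicit false

open TensorProduct

universe u v

namespace Pool.Agent.SYZ71Z

variable {k : Type v} {F : Type u} [Field k] [Field F] [Algebra k F]

/-- The kernel of `ev σ`, a prime ideal of `F ⊗ F`. -/
noncomputable def mker (σ : F ≃ₐ[k] F) : Ideal (F ⊗[k] F) := RingHom.ker (ev σ)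

theorem mem_mker (σ : F ≃ₐ[k] F) (x : F ⊗[k] F) : x ∈ mker σ ↔ ev σ x = 0 := Iff.rfl

theorem mker_isPrime (σ : F ≃ₐ[k] F) : (mker σ).IsPrime := RingHom.ker_isPrime _

theorem comap_tau_mker (σ ρ : F ≃ₐ[k] F) :
    (mker σ).comap (tau ρ) = mker (σ * ρ) := by
  ext x
  rw [Ideal.mem_comap, mem_mker, mem_mker, ev_tau]

theorem prime_eq_bot (σ : F ≃ₐ[k] F) (hσ : ∀ a : F, σ a = a → a ∈ (algebraMap k F).range)
    (ρ : F ≃ₐ[k] F) (q : Ideal (F ⊗[k] F)) (hq : q.comap (tau σ) = q) (hle : q ≤ mker ρ) :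
    q = ⊥ := by
  have hiff : ∀ x, tau σ x ∈ q ↔ x ∈ q := by
    intro x
    rw [← Ideal.mem_comap, hq]
  rw [eq_bot_iff]
  intro x hx
  have hj : ∀ j : ℤ, tau (σ ^ j) x ∈ q := by
    intro j
    induction j with
    | zero =>
      rw [zpow_zero, tau_one]
      exact hx
    | succ n ih =>
      rw [← mul_self_zpow, ← tau_tau, hiff]
      exact ih
    | pred n ih =>
      rw [← hiff, tau_tau, mul_self_zpow, sub_add_cancel]
      exact ih
  rw [Ideal.mem_bot]
  refine orbit_zero σ hσ ρ x fun j => ?_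
  rw [← ev_tau]
  exact hle (hj j)

theorem tensor_isDomain [IsNoetherianRing (F ⊗[k] F)] (r : ℕ) (hr : 1 ≤ r)
    (g : (Fin r → ℤ) → (F ≃ₐ[k] F)) (hg : ∀ u v, g (u + v) = g u * g v)
    (hinv : ∀ v, v ≠ 0 → ∀ a : F, g v a = a → a ∈ (algebraMap k F).range) :
    IsDomain (F ⊗[k] F) := by
  classical
  have hnt : Nontrivial (F ⊗[k] F) := by
    have hinj : Function.Injective (Algebra.TensorProduct.includeLeft : F →ₐ[k] F ⊗[k] F) :=
      Algebra.TensorProduct.includeLeft_injective (S := k) (algebraMap k F).injective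
    exact hinj.nontrivial
  have hg0 : g 0 = 1 := by
    have h := hg 0 0
    rw [add_zero] at h
    exact left_eq_mul.mp h
  obtain ⟨p, hp, hple⟩ : ∃ p ∈ minimalPrimes (F ⊗[k] F), p ≤ mker (1 : F ≃ₐ[k] F) := by
    have := mker_isPrime (1 : F ≃ₐ[k] F)
    exact Ideal.exists_minimalPrimes_le bot_le
  let d : Fin r → ℤ := fun _ => 1
  have hfin : (minimalPrimes (F ⊗[k] F)).Finite := minimalPrimes.finite_of_isNoetherianRing _
  have hmem : ∀ ρ : F ≃ₐ[k] F, p.comap (tau ρ) ∈ minimalPrimes (F ⊗[k] F) := by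
    intro ρ
    have hpp : p.IsPrime := hp.1.1
    have hback : ∀ x, tau ρ (tau ρ⁻¹ x) = x := by
      intro x
      rw [tau_tau, mul_inv_cancel, tau_one]
    have hback' : ∀ x, tau ρ⁻¹ (tau ρ x) = x := by
      intro x
      rw [tau_tau, inv_mul_cancel, tau_one]
    refine ⟨⟨Ideal.comap_isPrime _ _, bot_le⟩, ?_⟩
    rintro q ⟨hq, -⟩ hqp
    have h1 : q.comap (tau ρ⁻¹) ≤ p := by
      intro x hx
      have h2 : tau ρ⁻¹ x ∈ p.comap (tau ρ) := hqp hx
      rw [Ideal.mem_comap, hback] at h2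
      exact h2
    have h3 : p ≤ q.comap (tau ρ⁻¹) := hp.2 ⟨Ideal.comap_isPrime _ _, bot_le⟩ h1
    intro x hx
    have h4 : tau ρ x ∈ q.comap (tau ρ⁻¹) := h3 hx
    rw [Ideal.mem_comap, hback'] at h4
    exact h4
  have : Finite (minimalPrimes (F ⊗[k] F)) := hfin
  obtain ⟨i, j, hij, he⟩ := Finite.exists_ne_map_eq_of_infinite
    (fun i : ℕ => (⟨p.comap (tau (g (i • d))), hmem _⟩ : minimalPrimes (F ⊗[k] F)))
  have he' : p.comap (tau (g (i • d))) = p.comap (tau (g (j • d))) := congrArg Subtype.val he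
  set w : Fin r → ℤ := j • d - i • d with hw
  have hw0 : w ≠ 0 := by
    intro h
    have h1 := congrFun h ⟨0, hr⟩
    simp only [hw, d, Pi.sub_apply, mul_one, nsmul_eq_mul,
      Pi.zero_apply, Pi.mul_apply, Pi.natCast_apply] at h1
    apply hij
    omega
  have hpw : p.comap (tau (g w)) = p := by
    ext y
    have h1 : tau (g (i • d)) (tau (g (-(i • d))) y) = y := by
      rw [tau_tau, ← hg, add_neg_cancel, hg0, tau_one]
    have h2 : tau (g (j • d)) (tau (g (-(i • d))) y) = tau (g w) y := by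
      rw [tau_tau, ← hg, hw, sub_eq_add_neg]
    have h3 : tau (g (-(i • d))) y ∈ p.comap (tau (g (i • d))) ↔
        tau (g (-(i • d))) y ∈ p.comap (tau (g (j • d))) := by rw [he']
    rw [Ideal.mem_comap, Ideal.mem_comap, h1, h2] at h3
    rw [Ideal.mem_comap]
    exact h3.symm
  have hbot : p = ⊥ := prime_eq_bot (g w) (hinv w hw0) 1 p hpw hple
  have hpp : (⊥ : Ideal (F ⊗[k] F)).IsPrime := by
    rw [← hbot]
    exact hp.1.1
  exact IsDomain.of_bot_isPrime _

end Pool.Agent.SYZ71Z
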