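import Pool.Agent.SYZ71Z.ZDefs

/-!
# SYZ71Z/ZEch : echelon argument

Suppose `c ≠ 0` satisfies `∑ c_i g^j (b_i) = 0` for all `j : ℤ`.  Let
`W = {c : Fin m → F | ∀ j : ℤ, ∑ i, c i * (g ^ j) (b i) = 0}`, an `F`-subspace of `F ^ m`, stable
under `c ↦ (i ↦ g (c i))` (apply `g` to the equation for `j - 1`).  Among nonzero elements of `W`
choose `c` whose support has minimal cardinality, and normalise `c i₀ = 1` for some `i₀` of the
support.  Then `c' = (i ↦ g (c i) - c i) ∈ W` has support contained in that of `c` minus `i₀`
(`g 1 = 1`, `g 0 = 0`), so `c' = 0` by minimality, so every `c i` is fixed by `g`, hence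
`c i = algebraMap k F (a i)`.  The equation for `j = 0` gives `∑ a i • b i = 0`, so `a = 0` by
linear independence, contradicting `c i₀ = 1`.
-/

set_option autoImplicit false

namespace Pool.Agent.SYZ71Z

theorem echelon {k F : Type*} [Field k] [Field F] [Algebra k F] (g : F ≃ₐ[k] F)
    (hinv : ∀ a : F, g a = a → a ∈ (algebraMap k F).range)
    (m : ℕ) (b : Fin m → F) (hlin : LinearIndependent k b) (c : Fin m → F)
    (hz : ∀ j : ℤ, ∑ i, c i * (g ^ j) (b i) = 0) : c = 0 := by
  classical
  have key : ∀ N : ℕ, ∀ c : Fin m → F, (Finset.univ.filter fun i => c i ≠ 0).card = N →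
      (∀ j : ℤ, ∑ i, c i * (g ^ j) (b i) = 0) → c = 0 := by
    intro N
    induction N using Nat.strong_induction_on with
    | _ N IH =>
      intro c hN hc
      by_contra hne
      obtain ⟨i0, hi0⟩ : ∃ i0, c i0 ≠ 0 := by
        by_contra h
        push Not at h
        exact hne (funext h)
      -- normalise
      set c' : Fin m → F := fun i => (c i0)⁻¹ * c i with hc'
      have h1 : c' i0 = 1 := by
        simp only [hc']
        exact inv_mul_cancel₀ hi0
      have hz' : ∀ j : ℤ, ∑ i, c' i * (g ^ j) (b i) = 0 := by
        intro j
        have h := hc j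
        calc ∑ i, c' i * (g ^ j) (b i)
            = (c i0)⁻¹ * ∑ i, c i * (g ^ j) (b i) := by
              rw [Finset.mul_sum]
              refine Finset.sum_congr rfl fun i _ => ?_
              simp only [hc']
              ring
          _ = 0 := by rw [h, mul_zero]
      have hshift : ∀ j : ℤ, ∑ i, g (c' i) * (g ^ j) (b i) = 0 := by
        intro j
        have h := congrArg g (hz' (j - 1))
        rw [map_zero, map_sum] at h
        rw [← h]
        refine Finset.sum_congr rfl fun i _ => ?_
        rw [map_mul g (c' i) ((g ^ (j - 1)) (b i))]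
        congr 1
        have h2 : g ((g ^ (j - 1)) (b i)) = (g * g ^ (j - 1)) (b i) := rfl
        rw [h2, mul_self_zpow, sub_add_cancel]
      set d : Fin m → F := fun i => g (c' i) - c' i with hd
      have hdz : ∀ j : ℤ, ∑ i, d i * (g ^ j) (b i) = 0 := by
        intro j
        simp only [hd, sub_mul, Finset.sum_sub_distrib, hshift j, hz' j, sub_zero]
      have hlt : (Finset.univ.filter fun i => d i ≠ 0).card < N := by
        rw [← hN]
        refine Finset.card_lt_card ?_
        rw [Finset.ssubset_iff_of_subset]
        · refine ⟨i0, by simp [hi0], ?_⟩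
          simp [hd, h1]
        · intro i hi
          simp only [Finset.mem_filter, Finset.mem_univ, true_and] at hi ⊢
          intro h0
          apply hi
          simp [hd, hc', h0]
      have hd0 : d = 0 := IH _ hlt d rfl hdz
      have hfix : ∀ i, c' i ∈ (algebraMap k F).range := by
        intro i
        refine hinv _ ?_
        have := congrFun hd0 i
        simp only [hd, Pi.zero_apply] at this
        exact sub_eq_zero.mp this
      choose a ha using hfix
      have hsum : ∑ i, a i • b i = 0 := by
        have h := hz' 0
        rw [← h]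
        refine Finset.sum_congr rfl fun i _ => ?_
        rw [Algebra.smul_def, ha i, zpow_zero, AlgEquiv.one_apply]
      have ha0 : a i0 = 0 := Fintype.linearIndependent_iff.mp hlin a hsum i0
      have : c' i0 = 0 := by rw [← ha i0, ha0, map_zero]
      rw [h1] at this
      exact one_ne_zero this
  exact key _ c rfl hz

end Pool.Agent.SYZ71Z
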