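import Pool.Agent.SYZ71Z.ZPoly

/-!
# SYZ71Z/ZInt : the dimension property for finitely generated domains

Proof.  Noether normalization (`exists_integral_inj_algHom_of_fg` in
`Mathlib/RingTheory/NoetherNormalization.lean`): `s` and an injective integral
`g : MvPolynomial (Fin s) F →ₐ[F] R`.  Make `R` an algebra over `S = MvPolynomial (Fin s) F` by
`g.toRingHom.toAlgebra` (scalar tower `F, S, R`).  `R` is integral, hence algebraic over `S`, so
`trdeg F R = trdeg F S + trdeg S R = s + 0` (`Algebra.trdeg_add_eq`,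
`MvPolynomial.trdeg_of_isDomain`, `Algebra.IsAlgebraic.trdeg_eq_zero`), so `N ≤ s`.
Let `P` be a prime of `R`, `height P ≤ h`, `p = P.comap (algebraMap S R)`.  `S` is a UFD, hence
integrally closed, so `Algebra.HasGoingDown S R`
(instance in `Mathlib/RingTheory/IntegralClosure/GoingDown.lean`), `R` is Noetherian
(`Algebra.FiniteType.isNoetherianRing`), so by
`Ideal.height_eq_height_add_of_liesOver_of_hasGoingDown` `height p ≤ height P ≤ h`.
By `dimProp_mvPolynomial` there is `e` with `s ≤ h + e`, `e ≤ trdeg F (S ⧸ p)`, and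
`S ⧸ p →ₐ[F] R ⧸ P` is injective so `trdeg F (S ⧸ p) ≤ trdeg F (R ⧸ P)`.
-/

set_option autoImplicit false

open Module

universe u

namespace Pool.Agent.SYZ71Z

theorem dimProp_finiteType {F R : Type u} [Field F] [CommRing R] [IsDomain R] [Algebra F R]
    [Algebra.FiniteType F R] (N : ℕ) (hN : (N : Cardinal.{u}) ≤ Algebra.trdeg F R) :
    DimProp F R N := by
  obtain ⟨s, g, hginj, hgint⟩ := exists_integral_inj_algHom_of_fg F R
  let _ : Algebra (MvPolynomial (Fin s) F) R := g.toRingHom.toAlgebra
  have htower : IsScalarTower F (MvPolynomial (Fin s) F) R :=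
    IsScalarTower.of_algebraMap_eq (fun x => (g.commutes x).symm)
  have hfaith : FaithfulSMul (MvPolynomial (Fin s) F) R := by
    rw [faithfulSMul_iff_algebraMap_injective]
    exact hginj
  have hfaithF : FaithfulSMul F (MvPolynomial (Fin s) F) := by
    rw [faithfulSMul_iff_algebraMap_injective]
    exact (algebraMap F (MvPolynomial (Fin s) F)).injective
  have hint : Algebra.IsIntegral (MvPolynomial (Fin s) F) R := ⟨hgint⟩
  have hnoeth : IsNoetherianRing R := Algebra.FiniteType.isNoetherianRing F R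
  have htr : (N : Cardinal.{u}) ≤ (s : Cardinal.{u}) := by
    have h1 := _root_.trdeg_add_eq F (MvPolynomial (Fin s) F) (A := R)
    have h2 : Algebra.trdeg (MvPolynomial (Fin s) F) R = 0 :=
      _root_.trdeg_eq_zero
    rw [h2, add_zero, MvPolynomial.trdeg_of_isDomain] at h1
    rw [← h1] at hN
    simpa using hN
  have hNs : N ≤ s := by exact_mod_cast htr
  intro P hP h hh
  set p : Ideal (MvPolynomial (Fin s) F) := P.comap (algebraMap (MvPolynomial (Fin s) F) R)
    with hp
  have hpprime : p.IsPrime := Ideal.comap_isPrime _ P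
  have hover : P.LiesOver p := ⟨rfl⟩
  have hht : p.height ≤ (h : ℕ∞) := by
    refine le_trans ?_ hh
    rw [Ideal.height_eq_height_add_of_liesOver_of_hasGoingDown p P]
    exact le_self_add
  obtain ⟨e, he1, he2⟩ := dimProp_mvPolynomial (F := F) s p hpprime h hht
  refine ⟨e, hNs.trans he1, he2.trans ?_⟩
  let f : (MvPolynomial (Fin s) F ⧸ p) →ₐ[F] (R ⧸ P) :=
    Ideal.quotientMapₐ P g le_rfl
  apply trdeg_le_of_injective f
  intro x y hxy
  obtain ⟨a, rfl⟩ := Ideal.Quotient.mk_surjective x
  obtain ⟨b, rfl⟩ := Ideal.Quotient.mk_surjective y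
  have h3 : Ideal.Quotient.mk P (g a) = Ideal.Quotient.mk P (g b) := hxy
  rw [Ideal.Quotient.eq] at h3 ⊢
  rw [hp, Ideal.mem_comap]
  have h4 : g a - g b = g (a - b) := by rw [map_sub]
  rw [h4] at h3
  exact h3

end Pool.Agent.SYZ71Z
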