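import Pool.Agent.SYZ71Z.ZEch

/-!
# SYZ71Z/ZOrb : elements of `F ⊗ F` vanishing along an orbit

`exists_repr`: every `x : F ⊗[k] F` is `∑ c_i ⊗ b_i` with `b` linearly independent over `k`
(a basis `B` of `F` over `k`, `(Basis.baseChange F B).repr x`, finite support, or
`TensorProduct.exists_finset`-like and a basis of the span of the right components).

`sum_tmul_eq_zero`: if `b` is linearly independent and `∑ c_i ⊗ b_i = 0` then `c = 0`
(`LinearIndependent` of `1 ⊗ b_i` over `F`: extend `b` to a basis, `Basis.baseChange`; or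
`LinearIndependent.tmul...`/`TensorProduct.vanishesTrivially`, or flatness:
`F ⊗ k^m → F ⊗ F` is injective, `Module.Flat.lTensor_preserves_injective_linearMap`).

`orbit_zero`: write `x = ∑ c_i ⊗ b_i`, `b` independent.  `ev (ρ * σ ^ j) x = ∑ c_i * ρ (σ^j b_i)`;
apply `ρ⁻¹`: `∑ ρ⁻¹(c_i) * σ^j (b_i) = 0` for all `j`, so `ρ⁻¹ ∘ c = 0` by `echelon`.
-/

set_option autoImplicit false

open TensorProduct

universe u v

namespace Pool.Agent.SYZ71Z

variable {k : Type v} {F : Type u} [Field k] [Field F] [Algebra k F]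

theorem exists_repr (x : F ⊗[k] F) : ∃ (m : ℕ) (b : Fin m → F) (c : Fin m → F),
    LinearIndependent k b ∧ x = ∑ i, c i ⊗ₜ[k] b i := by
  classical
  obtain ⟨⟨ι, 𝔟⟩⟩ := Module.Free.exists_basis (R := k) (M := F)
  obtain ⟨c, hc⟩ := TensorProduct.eq_repr_basis_right 𝔟 x
  let e := c.support.equivFin.symm
  refine ⟨c.support.card, fun i => 𝔟 (e i), fun i => c (e i), ?_, ?_⟩
  · refine 𝔟.linearIndependent.comp (fun i => ((e i : c.support) : ι)) ?_
    exact Subtype.val_injective.comp e.injective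
  · rw [← hc, Finsupp.sum, ← Finset.sum_coe_sort]
    exact (Equiv.sum_comp e (fun i : c.support => c i ⊗ₜ[k] 𝔟 (i : ι))).symm

theorem sum_tmul_eq_zero {m : ℕ} (b : Fin m → F) (hlin : LinearIndependent k b) (c : Fin m → F)
    (h : ∑ i, c i ⊗ₜ[k] b i = 0) : c = 0 := by
  classical
  have hinj : Function.Injective (Fintype.linearCombination k b) :=
    linearIndependent_iff_injective_fintypeLinearCombination.mp hlin
  have hinj2 : Function.Injective (LinearMap.lTensor F (Fintype.linearCombination k b)) :=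
    Module.Flat.lTensor_preserves_injective_linearMap _ hinj
  have h1 : ∑ i, c i ⊗ₜ[k] (Pi.single i (1 : k) : Fin m → k) = 0 := by
    apply hinj2
    rw [map_zero, map_sum, ← h]
    refine Finset.sum_congr rfl fun i _ => ?_
    rw [LinearMap.lTensor_tmul, Fintype.linearCombination_apply_single, one_smul]
  funext j
  have h2 := congrArg ((TensorProduct.rid k F).toLinearMap ∘ₗ
    LinearMap.lTensor F (LinearMap.proj j : (Fin m → k) →ₗ[k] k)) h1
  rw [map_zero, map_sum] at h2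
  rw [Pi.zero_apply, ← h2]
  rw [Finset.sum_eq_single j]
  · simp
  · intro i _ hij
    simp [Pi.single_eq_of_ne (Ne.symm hij)]
  · intro hj
    exact absurd (Finset.mem_univ j) hj

theorem orbit_zero (σ : F ≃ₐ[k] F) (hσ : ∀ a : F, σ a = a → a ∈ (algebraMap k F).range)
    (ρ : F ≃ₐ[k] F) (x : F ⊗[k] F) (hx : ∀ j : ℤ, ev (ρ * σ ^ j) x = 0) : x = 0 := by
  obtain ⟨m, b, c, hlin, hxe⟩ := exists_repr x
  have hz : ∀ j : ℤ, ∑ i, ρ⁻¹ (c i) * (σ ^ j) (b i) = 0 := by
    intro j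
    have h1 := hx j
    rw [hxe, map_sum] at h1
    have h2 := congrArg (ρ⁻¹ : F ≃ₐ[k] F) h1
    rw [map_zero, map_sum] at h2
    rw [← h2]
    refine Finset.sum_congr rfl fun i _ => ?_
    rw [ev_tmul, map_mul (ρ⁻¹ : F ≃ₐ[k] F) (c i) ((ρ * σ ^ j) (b i))]
    congr 1
    have h3 : (ρ⁻¹ : F ≃ₐ[k] F) ((ρ * σ ^ j) (b i)) = (ρ⁻¹ * (ρ * σ ^ j)) (b i) := rfl
    rw [h3, inv_mul_cancel_left]
  have hc := echelon σ hσ m b hlin (fun i => ρ⁻¹ (c i)) hz
  have hc0 : ∀ i, c i = 0 := by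
    intro i
    have := congrFun hc i
    simp only [Pi.zero_apply] at this
    exact (map_eq_zero_iff (ρ⁻¹ : F ≃ₐ[k] F) (ρ⁻¹ : F ≃ₐ[k] F).injective).mp this
  rw [hxe]
  refine Finset.sum_eq_zero fun i _ => ?_
  rw [hc0 i, TensorProduct.zero_tmul]

end Pool.Agent.SYZ71Z
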