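import Pool.Agent.SYZ71Z.ZPolyStep

/-!
# SYZ71Z/ZPoly : the dimension property for polynomial rings

`dimProp_of_algEquiv`: transport along `A ≃ₐ[F] B`: for `P` prime in `B` take `P.comap e`,
`RingEquiv.height_comap`, and `A ⧸ P.comap e ≃ₐ[F] B ⧸ P`
(or just the injective map `A ⧸ P.comap e →ₐ[F] B ⧸ P`, `Algebra.trdeg_le_of_injective`).

`dimProp_mvPolynomial`: induction on `n`; `n = 0` is trivial (`e = 0`);
`n + 1`: `MvPolynomial.finSuccEquiv F n : MvPolynomial (Fin (n+1)) F ≃ₐ[F] (MvPolynomial (Fin n) F)[X]`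
and `dimProp_polynomial`.
-/

set_option autoImplicit false

open Module

universe u

namespace Pool.Agent.SYZ71Z

theorem dimProp_of_algEquiv {F A B : Type u} [Field F] [CommRing A] [CommRing B] [Algebra F A]
    [Algebra F B] (e : A ≃ₐ[F] B) (N : ℕ) (hA : DimProp F A N) : DimProp F B N := by
  intro P hP h hh
  have hP' : (P.comap (e.toRingEquiv : A ≃+* B)).IsPrime := Ideal.comap_isPrime _ P
  have hheight : (P.comap (e.toRingEquiv : A ≃+* B)).height ≤ (h : ℕ∞) := by
    rw [RingEquiv.height_comap]; exact hh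
  obtain ⟨e', h1, h2⟩ := hA _ hP' h hheight
  refine ⟨e', h1, h2.trans ?_⟩
  have hle : P.comap (e.toRingEquiv : A ≃+* B) ≤ P.comap (e : A →ₐ[F] B) := by
    intro x hx
    rw [Ideal.mem_comap] at hx ⊢
    exact hx
  let f : (A ⧸ P.comap (e.toRingEquiv : A ≃+* B)) →ₐ[F] (B ⧸ P) :=
    Ideal.quotientMapₐ P (e : A →ₐ[F] B) hle
  apply trdeg_le_of_injective f
  intro x y hxy
  obtain ⟨a, rfl⟩ := Ideal.Quotient.mk_surjective x
  obtain ⟨b, rfl⟩ := Ideal.Quotient.mk_surjective y
  have h3 : Ideal.Quotient.mk P (e a) = Ideal.Quotient.mk P (e b) := hxy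
  rw [Ideal.Quotient.eq] at h3 ⊢
  rw [Ideal.mem_comap]
  have h4 : e a - e b = e (a - b) := by rw [map_sub]
  rw [h4] at h3
  exact h3

theorem dimProp_mvPolynomial {F : Type u} [Field F] (n : ℕ) :
    DimProp F (MvPolynomial (Fin n) F) n := by
  induction n with
  | zero =>
    intro P _ h _
    exact ⟨0, by omega, by simp⟩
  | succ n ih =>
    exact dimProp_of_algEquiv (MvPolynomial.finSuccEquiv F n).symm (n + 1)
      (dimProp_polynomial n ih)

end Pool.Agent.SYZ71Z
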