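import Pool.Agent.SYZ71Z.ZDefs

/-!
# SYZ71Z/ZPolyStep : the dimension property passes from `R` to `R[X]`

Proof.  Let `P` be a prime of `R[X]`, `p = P.comap C`, `h ≥ height P`, `pX = p.map C ≤ P` (prime,
lying over `p`).  `height p ≤ height pX`: `R[X]` is free, hence flat over `R`, so
`Algebra.HasGoingDown R R[X]` (`Algebra.HasGoingDown.of_flat`) and
`Ideal.height_eq_height_add_of_liesOver_of_hasGoingDown` (or `Polynomial.height_map_C`-like).
* Case `P = pX`.  `height p ≤ h`, take `e'` for `p`, and `e = e' + 1`: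
  `R[X] ⧸ pX ≃ₐ[F] (R ⧸ p)[X]` (`Ideal.polynomialQuotientEquivQuotientPolynomial`, made `F`-linear)
  and `trdeg F (R ⧸ p)[X] = trdeg F (R ⧸ p) + trdeg (R ⧸ p) (R ⧸ p)[X] = trdeg F (R ⧸ p) + 1`
  (`Algebra.trdeg_add_eq`, `Polynomial.trdeg_of_isDomain`).
  [Alternative: if `x : ι → R ⧸ p` is a transcendence basis, the images of `x` and `X` are
  algebraically independent.]
* Case `pX < P`.  `height pX + 1 ≤ height P` (`Ideal.height_strict_mono_of_isPrime`, or
  `Ideal.height_add_one_le_of_lt_of_isPrime`), so `height p ≤ h - 1`, `h ≥ 1`; take `e` for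
  `(p, h - 1)`; the map `R ⧸ p → R[X] ⧸ P` is injective so
  `trdeg F (R ⧸ p) ≤ trdeg F (R[X] ⧸ P)` (`Algebra.trdeg_le_of_injective`).
-/

set_option autoImplicit false

open Module

universe u

namespace Pool.Agent.SYZ71Z

theorem dimProp_polynomial {F R : Type u} [Field F] [CommRing R] [Algebra F R]
    [IsNoetherianRing R] (N : ℕ) (hR : DimProp F R N) :
    DimProp F (Polynomial R) (N + 1) := by
  intro P hP h hh
  obtain ⟨p, hp⟩ : ∃ p : Ideal R, p = P.comap (Polynomial.C : R →+* Polynomial R) := ⟨_, rfl⟩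
  have hpp : p.IsPrime := by rw [hp]; exact Ideal.IsPrime.comap _
  have hqP : p.map (Polynomial.C : R →+* Polynomial R) ≤ P := by
    rw [hp]; exact Ideal.map_comap_le
  have hq : (p.map (Polynomial.C : R →+* Polynomial R)).IsPrime :=
    Ideal.isPrime_map_C_of_isPrime
  have hover : (p.map (Polynomial.C : R →+* Polynomial R)).LiesOver p := by
    constructor
    ext a
    change a ∈ p ↔ Polynomial.C a ∈ p.map (Polynomial.C : R →+* Polynomial R)
    constructor
    · exact fun ha => Ideal.mem_map_of_mem _ ha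
    · intro ha
      have := Ideal.mem_map_C_iff.1 ha 0
      rwa [Polynomial.coeff_C_zero] at this
  have hht : p.height ≤ (p.map (Polynomial.C : R →+* Polynomial R)).height := by
    rw [Ideal.height_eq_height_add_of_liesOver_of_hasGoingDown p
      (p.map (Polynomial.C : R →+* Polynomial R))]
    exact le_self_add
  by_cases hcase : p.map (Polynomial.C : R →+* Polynomial R) = P
  · -- `P = p R[X]`
    obtain ⟨e, he1, he2⟩ := hR p hpp h (hht.trans (by rw [hcase]; exact hh))
    refine ⟨e + 1, by omega, ?_⟩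
    let φ : Polynomial (R ⧸ p) ≃ₐ[F]
        Polynomial R ⧸ (p.map (Polynomial.C : R →+* Polynomial R)) :=
      AlgEquiv.ofRingEquiv (f := Ideal.polynomialQuotientEquivQuotientPolynomial p) (by
        intro r
        have h1 : algebraMap F (Polynomial (R ⧸ p)) r =
            (Polynomial.C (algebraMap F R r)).map (Ideal.Quotient.mk p) := by
          rw [Polynomial.map_C]; rfl
        rw [h1, Ideal.polynomialQuotientEquivQuotientPolynomial_map_mk]
        rfl)
    have h2 : Algebra.trdeg F (Polynomial R ⧸ P) = Algebra.trdeg F (Polynomial (R ⧸ p)) := by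
      rw [← hcase]
      exact φ.symm.trdeg_eq
    have h3 := trdeg_add_eq F (R ⧸ p) (A := Polynomial (R ⧸ p))
    rw [h2, ← h3, Polynomial.trdeg_of_isDomain]
    push_cast
    exact add_le_add he2 le_rfl
  · -- `p R[X] < P`
    have hlt : p.map (Polynomial.C : R →+* Polynomial R) < P := lt_of_le_of_ne hqP hcase
    have h1 := (Ideal.height_add_one_le_of_lt_of_isPrime hlt).trans hh
    have h2 : p.height + 1 ≤ (h : ℕ∞) := (add_le_add hht le_rfl).trans h1
    obtain ⟨h', rfl⟩ : ∃ h', h = h' + 1 := by
      rcases Nat.eq_zero_or_pos h with h0 | h0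
      · rw [h0] at h2
        exfalso
        have h3 : (1 : ℕ∞) ≤ 0 := le_trans le_add_self h2
        exact absurd h3 (by simp)
      · exact ⟨h - 1, by omega⟩
    have h3 : p.height ≤ (h' : ℕ∞) := by
      push_cast at h2
      exact (ENat.add_le_add_iff_right (by simp)).1 h2
    obtain ⟨e, he1, he2⟩ := hR p hpp h' h3
    refine ⟨e, by omega, he2.trans ?_⟩
    have hle : p ≤ P.comap (Polynomial.CAlgHom : R →ₐ[F] Polynomial R) := by
      rw [hp]; exact le_rfl
    let ψ : (R ⧸ p) →ₐ[F] (Polynomial R ⧸ P) :=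
      Ideal.quotientMapₐ P (Polynomial.CAlgHom : R →ₐ[F] Polynomial R) hle
    have hψ : Function.Injective ψ := by
      refine Ideal.quotientMap_injective' (H := hle) ?_
      rw [hp]; exact le_rfl
    exact trdeg_le_of_injective ψ hψ

end Pool.Agent.SYZ71Z
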