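import Pool.Agent.SYZ71Z.ZDom

/-!
# SYZ71Z/ZStab : echelon argument and domain property for groups of automorphisms

Versions of `ZEch`, `ZOrb`, `ZDom` for a group `S` of automorphisms (instead of the powers of one
automorphism) whose fixed field is `k`; the stabiliser of a prime of `F ⊗ F`.
-/

set_option autoImplicit false

open TensorProduct Module

universe u v

namespace Pool.Agent.SYZ71Z

theorem echelon_group {k F : Type*} [Field k] [Field F] [Algebra k F] (S : Subgroup (F ≃ₐ[k] F))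
    (hinv : ∀ a : F, (∀ σ ∈ S, σ a = a) → a ∈ (algebraMap k F).range)
    (m : ℕ) (b : Fin m → F) (hlin : LinearIndependent k b) (c : Fin m → F)
    (hz : ∀ σ ∈ S, ∑ i, c i * σ (b i) = 0) : c = 0 := by
  classical
  have key : ∀ N : ℕ, ∀ c : Fin m → F, (Finset.univ.filter fun i => c i ≠ 0).card = N →
      (∀ σ ∈ S, ∑ i, c i * σ (b i) = 0) → c = 0 := by
    intro N
    induction N using Nat.strong_induction_on with
    | _ N IH =>
      intro c hN hc
      by_contra hne
      obtain ⟨i0, hi0⟩ : ∃ i0, c i0 ≠ 0 := by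
        by_contra h
        push Not at h
        exact hne (funext h)
      -- normalise
      set c' : Fin m → F := fun i => (c i0)⁻¹ * c i with hc'
      have h1 : c' i0 = 1 := by
        simp only [hc']
        exact inv_mul_cancel₀ hi0
      have hz' : ∀ σ ∈ S, ∑ i, c' i * σ (b i) = 0 := by
        intro σ hσ
        have h := hc σ hσ
        calc ∑ i, c' i * σ (b i)
            = (c i0)⁻¹ * ∑ i, c i * σ (b i) := by
              rw [Finset.mul_sum]
              refine Finset.sum_congr rfl fun i _ => ?_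
              simp only [hc']
              ring
          _ = 0 := by rw [h, mul_zero]
      have hshift : ∀ τ ∈ S, ∀ σ ∈ S, ∑ i, τ (c' i) * σ (b i) = 0 := by
        intro τ hτ σ hσ
        have h := congrArg τ (hz' (τ⁻¹ * σ) (S.mul_mem (S.inv_mem hτ) hσ))
        rw [map_zero, map_sum] at h
        rw [← h]
        refine Finset.sum_congr rfl fun i _ => ?_
        rw [map_mul τ (c' i) ((τ⁻¹ * σ) (b i))]
        congr 1
        have h2 : τ ((τ⁻¹ * σ) (b i)) = (τ * (τ⁻¹ * σ)) (b i) := rfl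
        rw [h2, mul_inv_cancel_left]
      have hfix : ∀ i, c' i ∈ (algebraMap k F).range := by
        intro i
        refine hinv _ fun τ hτ => ?_
        set d : Fin m → F := fun i => τ (c' i) - c' i with hd
        have hdz : ∀ σ ∈ S, ∑ i, d i * σ (b i) = 0 := by
          intro σ hσ
          simp only [hd, sub_mul, Finset.sum_sub_distrib, hshift τ hτ σ hσ, hz' σ hσ, sub_zero]
        have hlt : (Finset.univ.filter fun i => d i ≠ 0).card < N := by
          rw [← hN]
          refine Finset.card_lt_card ?_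
          rw [Finset.ssubset_iff_of_subset]
          · refine ⟨i0, by simp [hi0], ?_⟩
            simp [hd, h1]
          · intro i hi
            simp only [Finset.mem_filter, Finset.mem_univ, true_and] at hi ⊢
            intro h0
            apply hi
            simp [hd, hc', h0]
        have hd0 : d = 0 := IH _ hlt d rfl hdz
        have := congrFun hd0 i
        simp only [hd, Pi.zero_apply] at this
        exact sub_eq_zero.mp this
      choose a ha using hfix
      have hsum : ∑ i, a i • b i = 0 := by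
        have h := hz' 1 S.one_mem
        rw [← h]
        refine Finset.sum_congr rfl fun i _ => ?_
        rw [Algebra.smul_def, ha i, AlgEquiv.one_apply]
      have ha0 : a i0 = 0 := Fintype.linearIndependent_iff.mp hlin a hsum i0
      have : c' i0 = 0 := by rw [← ha i0, ha0, map_zero]
      rw [h1] at this
      exact one_ne_zero this
  exact key _ c rfl hz

variable {k : Type v} {F : Type u} [Field k] [Field F] [Algebra k F]

theorem echelon_group' (S : Subgroup (F ≃ₐ[k] F))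
    (hinv : ∀ a : F, (∀ σ ∈ S, σ a = a) → a ∈ (algebraMap k F).range) (ρ : F ≃ₐ[k] F)
    (m : ℕ) (b : Fin m → F) (hlin : LinearIndependent k b) (c : Fin m → F)
    (hz : ∀ σ ∈ S, ∑ i, c i * (ρ * σ) (b i) = 0) : c = 0 := by
  have hz' : ∀ σ ∈ S, ∑ i, ρ⁻¹ (c i) * σ (b i) = 0 := by
    intro σ hσ
    have h2 := congrArg (ρ⁻¹ : F ≃ₐ[k] F) (hz σ hσ)
    rw [map_zero, map_sum] at h2
    rw [← h2]
    refine Finset.sum_congr rfl fun i _ => ?_
    rw [map_mul (ρ⁻¹ : F ≃ₐ[k] F) (c i) ((ρ * σ) (b i))]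
    congr 1
    have h3 : (ρ⁻¹ : F ≃ₐ[k] F) ((ρ * σ) (b i)) = (ρ⁻¹ * (ρ * σ)) (b i) := rfl
    rw [h3, inv_mul_cancel_left]
  have hc := echelon_group S hinv m b hlin (fun i => ρ⁻¹ (c i)) hz'
  funext i
  have := congrFun hc i
  simp only [Pi.zero_apply] at this
  exact (map_eq_zero_iff (ρ⁻¹ : F ≃ₐ[k] F) (ρ⁻¹ : F ≃ₐ[k] F).injective).mp this

theorem orbit_zero_group (S : Subgroup (F ≃ₐ[k] F))
    (hinv : ∀ a : F, (∀ σ ∈ S, σ a = a) → a ∈ (algebraMap k F).range) (ρ : F ≃ₐ[k] F)
    (x : F ⊗[k] F) (hx : ∀ σ ∈ S, ev (ρ * σ) x = 0) : x = 0 := by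
  obtain ⟨m, b, c, hlin, hxe⟩ := exists_repr x
  have hc : c = 0 := by
    refine echelon_group' S hinv ρ m b hlin c fun σ hσ => ?_
    have h1 := hx σ hσ
    rw [hxe, map_sum] at h1
    simpa only [ev_tmul] using h1
  rw [hxe]
  refine Finset.sum_eq_zero fun i _ => ?_
  rw [hc, Pi.zero_apply, TensorProduct.zero_tmul]

theorem prime_eq_bot_group (S : Subgroup (F ≃ₐ[k] F))
    (hinv : ∀ a : F, (∀ σ ∈ S, σ a = a) → a ∈ (algebraMap k F).range) (ρ : F ≃ₐ[k] F)
    (q : Ideal (F ⊗[k] F)) (hq : ∀ σ ∈ S, q.comap (tau σ) = q) (hle : q ≤ mker ρ) : q = ⊥ := by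
  rw [eq_bot_iff]
  intro x hx
  rw [Ideal.mem_bot]
  refine orbit_zero_group S hinv ρ x fun σ hσ => ?_
  rw [← ev_tau]
  refine hle ?_
  rw [← hq σ hσ, Ideal.mem_comap] at hx
  exact hx

section Action

variable {r : ℕ} (g : (Fin r → ℤ) → (F ≃ₐ[k] F)) (hg : ∀ u v, g (u + v) = g u * g v)

include hg

theorem g_zero : g 0 = 1 := by
  have h := hg 0 0
  rw [add_zero] at h
  exact left_eq_mul.mp h

theorem g_neg (u : Fin r → ℤ) : g (-u) = (g u)⁻¹ := by
  refine eq_inv_of_mul_eq_one_left ?_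
  rw [← hg, neg_add_cancel, g_zero g hg]

/-- The image of a subgroup of `ℤ^r`. -/
def imgGroup (H : AddSubgroup (Fin r → ℤ)) : Subgroup (F ≃ₐ[k] F) where
  carrier := g '' (H : Set (Fin r → ℤ))
  mul_mem' := by
    rintro _ _ ⟨u, hu, rfl⟩ ⟨w, hw, rfl⟩
    exact ⟨u + w, H.add_mem hu hw, hg u w⟩
  one_mem' := ⟨0, H.zero_mem, g_zero g hg⟩
  inv_mem' := by
    rintro _ ⟨u, hu, rfl⟩
    exact ⟨-u, H.neg_mem hu, g_neg g hg u⟩

theorem echelon_sub (H : AddSubgroup (Fin r → ℤ)) (v0 : Fin r → ℤ)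
    (hinv : ∀ a : F, (∀ u ∈ H, g u a = a) → a ∈ (algebraMap k F).range)
    (m : ℕ) (b : Fin m → F) (hlin : LinearIndependent k b) (c : Fin m → F)
    (hz : ∀ u ∈ H, ∑ i, c i * g (v0 + u) (b i) = 0) : c = 0 := by
  refine echelon_group' (imgGroup g hg H) (fun a ha => hinv a fun u hu => ha _ ⟨u, hu, rfl⟩)
    (g v0) m b hlin c ?_
  rintro _ ⟨u, hu, rfl⟩
  have h := hz u hu
  rw [hg] at h
  exact h

theorem prime_eq_bot_sub (H : AddSubgroup (Fin r → ℤ))
    (hinv : ∀ a : F, (∀ u ∈ H, g u a = a) → a ∈ (algebraMap k F).range) (ρ : F ≃ₐ[k] F)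
    (q : Ideal (F ⊗[k] F)) (hq : ∀ u ∈ H, q.comap (tau (g u)) = q) (hle : q ≤ mker ρ) :
    q = ⊥ := by
  refine prime_eq_bot_group (imgGroup g hg H)
    (fun a ha => hinv a fun u hu => ha _ ⟨u, hu, rfl⟩) ρ q ?_ hle
  rintro _ ⟨u, hu, rfl⟩
  exact hq u hu

/-- Stabiliser in `ℤ^r` of an ideal of `F ⊗ F`. -/
noncomputable def stab (P : Ideal (F ⊗[k] F)) : AddSubgroup (Fin r → ℤ) where
  carrier := {u | P.comap (tau (g u)) = P}
  add_mem' := by
    intro u w hu hw
    simp only [Set.mem_ofPred_eq] at hu hw ⊢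
    ext x
    rw [Ideal.mem_comap, hg, ← tau_tau, ← Ideal.mem_comap, hu, ← Ideal.mem_comap, hw]
  zero_mem' := by
    simp only [Set.mem_ofPred_eq]
    ext x
    rw [Ideal.mem_comap, g_zero g hg, tau_one]
  neg_mem' := by
    intro u hu
    simp only [Set.mem_ofPred_eq] at hu ⊢
    ext x
    have h : tau (g u) (tau (g (-u)) x) = x := by
      rw [tau_tau, ← hg, add_neg_cancel, g_zero g hg, tau_one]
    conv_rhs => rw [← h, ← Ideal.mem_comap, hu]
    rw [Ideal.mem_comap]

theorem mem_stab (P : Ideal (F ⊗[k] F)) (u : Fin r → ℤ) :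
    u ∈ stab g hg P ↔ P.comap (tau (g u)) = P := Iff.rfl

/-- `comap (tau (g u)) P = comap (tau (g v)) P` iff `u - v` stabilises `P`. -/
theorem comap_eq_iff (P : Ideal (F ⊗[k] F)) (u w : Fin r → ℤ) :
    P.comap (tau (g u)) = P.comap (tau (g w)) ↔ u - w ∈ stab g hg P := by
  have key : ∀ y, tau (g u) (tau (g (-w)) y) = tau (g (u - w)) y := by
    intro y
    rw [tau_tau, ← hg, ← sub_eq_add_neg]
  have key2 : ∀ y, tau (g w) (tau (g (-w)) y) = y := by
    intro y
    rw [tau_tau, ← hg, add_neg_cancel, g_zero g hg, tau_one]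
  have key3 : ∀ y, tau (g (-w)) (tau (g w) y) = y := by
    intro y
    rw [tau_tau, ← hg, neg_add_cancel, g_zero g hg, tau_one]
  rw [mem_stab]
  constructor
  · intro h
    ext y
    have h1 : tau (g (-w)) y ∈ P.comap (tau (g u)) ↔ tau (g (-w)) y ∈ P.comap (tau (g w)) := by
      rw [h]
    rw [Ideal.mem_comap, Ideal.mem_comap, key, key2] at h1
    rw [Ideal.mem_comap]
    exact h1
  · intro h
    ext x
    have h1 : tau (g w) x ∈ P.comap (tau (g (u - w))) ↔ tau (g w) x ∈ P := by rw [h]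
    rw [Ideal.mem_comap, ← key, key3] at h1
    rw [Ideal.mem_comap, Ideal.mem_comap]
    exact h1

variable (s : ℕ) (hinv : ∀ H : AddSubgroup (Fin r → ℤ), s ≤ finrank ℤ H →
      ∀ a : F, (∀ v ∈ H, g v a = a) → a ∈ (algebraMap k F).range)

include hinv

theorem eq_bot_of_le_finrank_stab (ρ : F ≃ₐ[k] F) (P : Ideal (F ⊗[k] F)) (hle : P ≤ mker ρ)
    (hs : s ≤ finrank ℤ (stab g hg P)) : P = ⊥ :=
  prime_eq_bot_sub g hg (stab g hg P) (hinv _ hs) ρ P (fun _ hu => hu) hle

theorem finrank_stab_lt (ρ : F ≃ₐ[k] F) (P : Ideal (F ⊗[k] F)) (hle : P ≤ mker ρ)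
    (hne : P ≠ ⊥) : finrank ℤ (stab g hg P) < s := by
  by_contra h
  exact hne (eq_bot_of_le_finrank_stab g hg s hinv ρ P hle (not_lt.mp h))

end Action

/-- A subgroup of `ℤ^r` containing a nonzero multiple of each vector has rank at least `r`. -/
theorem le_finrank_of_mul_mem {r : ℕ} (H : AddSubgroup (Fin r → ℤ))
    (h : ∀ i : Fin r, ∃ n : ℤ, n ≠ 0 ∧ (Pi.single i n : Fin r → ℤ) ∈ H) : r ≤ finrank ℤ H := by
  choose n hn hmem using h
  have hfin : Module.Finite ℤ H :=
    Module.Finite.of_injective H.subtype.toIntLinearMap Subtype.val_injective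
  have hlin : LinearIndependent ℤ (fun i : Fin r => (⟨Pi.single i (n i), hmem i⟩ : H)) := by
    rw [Fintype.linearIndependent_iff]
    intro a ha i
    have h1 := congrArg (fun x : H => (x : Fin r → ℤ) i) ha
    have h2 : ∀ c : Fin r, (a c • Pi.single c (n c) : Fin r → ℤ) i =
        if c = i then a c * n c else 0 := by
      intro c
      by_cases hc : c = i
      · subst hc
        simp
      · simp [hc, Ne.symm hc]
    simp only [AddSubgroup.val_finsetSum, AddSubgroup.coe_zsmul, Finset.sum_apply, h2,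
      ZeroMemClass.coe_zero, Pi.zero_apply, Finset.sum_ite_eq', Finset.mem_univ, if_true] at h1
    exact (mul_eq_zero.mp h1).resolve_right (hn i)
  have := hlin.fintype_card_le_finrank
  simpa using this

theorem tensor_isDomain_sub [IsNoetherianRing (F ⊗[k] F)] (r s : ℕ) (hsr : s ≤ r)
    (g : (Fin r → ℤ) → (F ≃ₐ[k] F)) (hg : ∀ u v, g (u + v) = g u * g v)
    (hinv : ∀ H : AddSubgroup (Fin r → ℤ), s ≤ finrank ℤ H →
      ∀ a : F, (∀ v ∈ H, g v a = a) → a ∈ (algebraMap k F).range) :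
    IsDomain (F ⊗[k] F) := by
  classical
  have hnt : Nontrivial (F ⊗[k] F) := by
    have hinj : Function.Injective (Algebra.TensorProduct.includeLeft : F →ₐ[k] F ⊗[k] F) :=
      Algebra.TensorProduct.includeLeft_injective (S := k) (algebraMap k F).injective
    exact hinj.nontrivial
  obtain ⟨p, hp, hple⟩ : ∃ p ∈ minimalPrimes (F ⊗[k] F), p ≤ mker (1 : F ≃ₐ[k] F) := by
    have := mker_isPrime (1 : F ≃ₐ[k] F)
    exact Ideal.exists_minimalPrimes_le bot_le
  have hfin : (minimalPrimes (F ⊗[k] F)).Finite := minimalPrimes.finite_of_isNoetherianRing _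
  have hmem : ∀ ρ : F ≃ₐ[k] F, p.comap (tau ρ) ∈ minimalPrimes (F ⊗[k] F) := by
    intro ρ
    have hpp : p.IsPrime := hp.1.1
    have hback : ∀ x, tau ρ (tau ρ⁻¹ x) = x := by
      intro x
      rw [tau_tau, mul_inv_cancel, tau_one]
    have hback' : ∀ x, tau ρ⁻¹ (tau ρ x) = x := by
      intro x
      rw [tau_tau, inv_mul_cancel, tau_one]
    refine ⟨⟨Ideal.comap_isPrime _ _, bot_le⟩, ?_⟩
    rintro q ⟨hq, -⟩ hqp
    have h1 : q.comap (tau ρ⁻¹) ≤ p := by
      intro x hx
      have h2 : tau ρ⁻¹ x ∈ p.comap (tau ρ) := hqp hx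
      rw [Ideal.mem_comap, hback] at h2
      exact h2
    have h3 : p ≤ q.comap (tau ρ⁻¹) := hp.2 ⟨Ideal.comap_isPrime _ _, bot_le⟩ h1
    intro x hx
    have h4 : tau ρ x ∈ q.comap (tau ρ⁻¹) := h3 hx
    rw [Ideal.mem_comap, hback'] at h4
    exact h4
  have : Finite (minimalPrimes (F ⊗[k] F)) := hfin
  have hrank : r ≤ finrank ℤ (stab g hg p) := by
    refine le_finrank_of_mul_mem _ fun t => ?_
    obtain ⟨i, j, hij, he⟩ := Finite.exists_ne_map_eq_of_infinite
      (fun i : ℤ => (⟨p.comap (tau (g (Pi.single t i))), hmem _⟩ : minimalPrimes (F ⊗[k] F)))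
    have he' : p.comap (tau (g (Pi.single t i))) = p.comap (tau (g (Pi.single t j))) :=
      congrArg Subtype.val he
    refine ⟨i - j, sub_ne_zero.mpr hij, ?_⟩
    rw [Pi.single_sub]
    exact (comap_eq_iff g hg p _ _).mp he'
  have hbot : p = ⊥ := eq_bot_of_le_finrank_stab g hg s hinv 1 p hple (hsr.trans hrank)
  have hpp : (⊥ : Ideal (F ⊗[k] F)).IsPrime := by
    rw [← hbot]
    exact hp.1.1
  exact IsDomain.of_bot_isPrime _

end Pool.Agent.SYZ71Z
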